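import Pool.Agent.X69.NSQ.AP

/-!
The weighted sieve for `n ^ 2 + a` in arithmetic progressions and short intervals, with further residue
classes removed at the small primes: the theorem.
-/

set_option autoImplicit false

namespace Pool.Agent.X69.NSQ

open Finset Filter
open Pool.Agent.W23.DC
open Pool.Agent.Y882 (PZ exJ tt_lt)
open Pool.Agent.Y882.PX
open Pool.Agent.Y882.KW
open Pool.Agent.Y882.SI
open Pool.Agent.Y882.MG

/-- the progression -/
def Jp (b q H : ℕ) : Finset ℕ := (Icc 1 H).image (fun j => b + q * j)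

lemma inj_ap (b q : ℕ) (hq : 0 < q) : Function.Injective (fun j : ℕ => b + q * j) := by
  intro x y h
  have h1 : q * x = q * y := by
    have : b + q * x = b + q * y := h
    omega
  exact Nat.eq_of_mul_eq_mul_left hq h1

lemma card_Jp (b q H : ℕ) (hq : 0 < q) : (Jp b q H).card = H := by
  unfold Jp
  rw [card_image_of_injective _ (inj_ap b q hq)]
  simp

lemma card_Jp_filter (b q H : ℕ) (hq : 0 < q) (P : ℕ → Prop) [DecidablePred P] :
    ((Jp b q H).filter P).card = ((Icc 1 H).filter (fun j => P (b + q * j))).card := by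
  unfold Jp
  rw [filter_image, card_image_of_injective _ (inj_ap b q hq)]

open Classical in
lemma E_card (a : ℤ) (Ω : ℕ → Finset ℕ) (w : ℝ) (b q p : ℕ) (hp : p.Prime) (hpq : ¬ p ∣ q) :
    ((range p).filter (fun u => Bad a Ω w p (b + q * u))).card = (Cl a Ω w p).card := by
  set f : ℕ → ℕ := fun u => (b + q * u) % p with hf
  have hinj : Set.InjOn f (range p : Finset ℕ) := by
    intro x hx y hy hxy
    rw [mem_coe, mem_range] at hx hy
    have h1 : b + q * x ≡ b + q * y [MOD p] := hxy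
    have h2 : q * x ≡ q * y [MOD p] := Nat.ModEq.add_left_cancel' b h1
    have h3 : x ≡ y [MOD p] :=
      Nat.ModEq.cancel_left_of_coprime ((Nat.Prime.coprime_iff_not_dvd hp).2 hpq) h2
    unfold Nat.ModEq at h3
    rwa [Nat.mod_eq_of_lt hx, Nat.mod_eq_of_lt hy] at h3
  have himg : (range p).image f = range p := by
    apply eq_of_subset_of_card_le
    · intro v hv
      rw [mem_image] at hv
      obtain ⟨u, _, rfl⟩ := hv
      exact mem_range.2 (Nat.mod_lt _ hp.pos)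
    · rw [card_image_of_injOn hinj]
  have h1 : (range p).filter (fun u => Bad a Ω w p (b + q * u)) =
      (range p).filter (fun u => f u ∈ Cl a Ω w p) := by
    apply filter_congr
    intro u _
    rw [bad_iff a Ω w p _ hp.pos]
  have h2 : (((range p).image f).filter (fun v => v ∈ Cl a Ω w p)).card =
      ((range p).filter (fun u => f u ∈ Cl a Ω w p)).card := by
    rw [filter_image]
    apply card_image_of_injOn
    intro x hx y hy hxy
    exact hinj (mem_coe.2 (mem_filter.1 (mem_coe.1 hx)).1) (mem_coe.2 (mem_filter.1 (mem_coe.1 hy)).1) hxy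
  rw [h1, ← h2, himg]
  congr 1
  ext v
  rw [mem_filter, mem_range]
  constructor
  · exact fun h => h.2
  · intro h
    exact ⟨mem_range.1 (Cl_sub a Ω w p h), h⟩

/-- the local densities -/
noncomputable def rh (a : ℤ) (Ω : ℕ → Finset ℕ) (w : ℝ) (q p : ℕ) : ℕ :=
  if p ∣ q then 0 else (Cl a Ω w p).card

open Classical in
lemma err_ap (a : ℤ) (Ω : ℕ → Finset ℕ) (w : ℝ) (K b q H : ℕ) (hq : 0 < q) (T : Finset ℕ)
    (hT : ∀ p ∈ T, p.Prime) (hK : ∀ p : ℕ, p.Prime → (Ω p).card ≤ K)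
    (hb : ∀ p : ℕ, p.Prime → p ∣ q → ¬ (p : ℤ) ∣ (b : ℤ) ^ 2 + a ∧ b % p ∉ Ω p) :
    |Err a Ω w (Jp b q H) (rh a Ω w q) T| ≤ ((K + 2 : ℕ) : ℝ) ^ T.card := by
  unfold Err
  rw [card_Jp b q H hq, card_Jp_filter b q H hq]
  by_cases hd : ∃ p ∈ T, p ∣ q
  · obtain ⟨p, hp, hpq⟩ := hd
    have h1 : ∏ p ∈ T, ((rh a Ω w q p : ℕ) : ℝ) / p = 0 := by
      apply prod_eq_zero hp
      unfold rh
      rw [if_pos hpq, Nat.cast_zero, zero_div]
    have h2 : (Icc 1 H).filter (fun j => ∀ p ∈ T, Bad a Ω w p (b + q * j)) = ∅ := by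
      rw [filter_eq_empty_iff]
      intro j _ hj
      have h3 := hj p hp
      have h4 : (b + q * j) % p = b % p := by
        obtain ⟨e, rfl⟩ := hpq
        rw [mul_assoc, Nat.add_mul_mod_self_left]
      rw [bad_mod, h4, ← bad_mod] at h3
      obtain ⟨h5, h6⟩ := hb p (hT p hp) hpq
      rcases h3 with h7 | h7
      · exact h5 h7
      · exact h6 h7.2
    rw [h1, h2]
    simp only [card_empty, Nat.cast_zero, mul_zero, sub_zero, abs_zero]
    positivity
  push Not at hd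
  have h1 : ∏ p ∈ T, ((rh a Ω w q p : ℕ) : ℝ) / p =
      ∏ p ∈ T, ((((range p).filter (fun u => Bad a Ω w p (b + q * u))).card : ℕ) : ℝ) / p := by
    apply prod_congr rfl
    intro p hp
    unfold rh
    rw [if_neg (hd p hp), E_card a Ω w b q p (hT p hp) (hd p hp)]
  have h2 : (Icc 1 H).filter (fun j => ∀ p ∈ T, Bad a Ω w p (b + q * j)) =
      (Icc 1 H).filter (fun j => ∀ p ∈ T,
        j % p ∈ (range p).filter (fun u => Bad a Ω w p (b + q * u))) := by
    apply filter_congr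
    intro j _
    apply forall₂_congr
    intro p hp
    rw [mem_filter, mem_range]
    have h3 : Bad a Ω w p (b + q * j) ↔ Bad a Ω w p (b + q * (j % p)) := by
      rw [bad_mod a Ω w p (b + q * j), bad_mod a Ω w p (b + q * (j % p))]
      have h4 : (b + q * j) % p = (b + q * (j % p)) % p := by
        have h5 : b + q * j ≡ b + q * (j % p) [MOD p] :=
          Nat.ModEq.add_left b (Nat.ModEq.mul_left q (Nat.mod_modEq j p).symm)
        exact h5
      rw [h4]
    rw [h3]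
    exact ⟨fun h => ⟨Nat.mod_lt _ (hT p hp).pos, h⟩, fun h => h.2⟩
  have h3 := Pool.Agent.Cov.count_residues T hT
    (fun p => (range p).filter (fun u => Bad a Ω w p (b + q * u)))
    (fun p _ => filter_subset _ _) H
  rw [h1, h2]
  refine h3.trans ?_
  rw [← prod_const]
  apply Finset.prod_le_prod
  · intro p _
    positivity
  · intro p hp
    rw [E_card a Ω w b q p (hT p hp) (hd p hp)]
    exact_mod_cast Cl_card_le a Ω w K p (hT p hp) (hK p (hT p hp))

lemma card_pf (q : ℕ) (hq : 0 < q) : (2 : ℝ) ^ q.primeFactors.card ≤ q := by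
  have h1 : 2 ^ q.primeFactors.card ≤ ∏ p ∈ q.primeFactors, p := by
    rw [← prod_const]
    apply prod_le_prod' 
    intro p hp
    exact (Nat.prime_of_mem_primeFactors hp).two_le
  have h2 : ∏ p ∈ q.primeFactors, p ≤ q := Nat.le_of_dvd hq (Nat.prod_primeFactors_dvd q)
  exact_mod_cast h1.trans h2

open Classical in
theorem ap (a : ℤ) (ha : ¬ IsSquare (-a)) (K r : ℕ) (τ ζ υ lam S h : ℝ) (hζ : 0 < ζ)
    (h2 : 2 * ζ < τ) (h4 : τ ≤ 4 * ζ) (hτ : τ < h) (hh1 : h ≤ 1) (hζυ : ζ ≤ υ) (hυτ : υ < τ)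
    (hlam : 0 < lam)
    (hJ0 : ∫ x in ζ..υ, (lam - lam / υ * x) / (τ - x) / x < Real.log (τ / ζ - 1) / τ)
    (hr : 1 / lam + S / υ ≤ r + 1) (hS : 2 < S) :
    ∃ c δ : ℝ, 0 < c ∧ 0 < δ ∧ ∃ X0 : ℕ, ∀ X : ℕ, X0 ≤ X → ∀ b q H : ℕ, 0 < q →
      (X : ℝ) ^ h ≤ H → b + q * H ≤ X →
      ∀ Ω : ℕ → Finset ℕ, (∀ p : ℕ, p.Prime → (Ω p).card ≤ K) →
        (∀ p : ℕ, p.Prime → p ∣ q → ¬ (p : ℤ) ∣ (b : ℤ) ^ 2 + a ∧ b % p ∉ Ω p) →
        c * (H * ∏ p ∈ (Icc 1 X).filter (fun p : ℕ => p.Prime ∧ ¬ p ∣ q),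
            (1 - ((Cl a Ω ((X : ℝ) + 1) p).card : ℝ) / p)) ≤
          ((Good a r Ω ((X : ℝ) ^ δ) ((X : ℝ) ^ ζ) (Jp b q H)).card : ℝ) := by
  have ha0 : a ≠ 0 := by
    rintro rfl
    exact ha ⟨0, by simp⟩
  have hυ0 : 0 < υ := by linarith
  have hυ1 : υ ≤ 1 := by linarith
  obtain ⟨s, hs⟩ : ∃ s : ℝ, s = h - τ := ⟨_, rfl⟩
  have hs0 : 0 < s := by linarith
  obtain ⟨ε, hε, hεζ, hεs⟩ : ∃ ε : ℝ, 0 < ε ∧ ε ≤ ζ / 8 ∧ ε ≤ s / 8 :=
    ⟨min (ζ / 8) (s / 8), lt_min (by linarith) (by linarith), min_le_left _ _, min_le_right _ _⟩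
  obtain ⟨δ, ε₁, η, hδ, hε₁, hε₁ζ, hη, Y1, HG⟩ := gen a ha (K + 2) r τ ζ υ lam S (τ + s / 4) ε hζ h2 h4
    (by linarith) hζυ hυτ hlam hJ0 hr (by linarith) hε
  obtain ⟨Y2, HM⟩ := mer_quad a ha ε₁ υ (η / 2) hε₁ hυ1 (by linarith)
  obtain ⟨C, hC1, hC⟩ := pow_card_le (K + 2) (s / 8) (by linarith)
  have evp : ∀ (A e : ℝ), 0 < e → ∀ᶠ Y : ℕ in atTop, A ≤ (Y : ℝ) ^ e := fun A e he =>
    ((tendsto_rpow_atTop he).comp tendsto_natCast_atTop_atTop).eventually_ge_atTop _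
  have ev0 : ∀ᶠ Y : ℕ in atTop, 8 / η * Real.log Y ≤ (Y : ℝ) ^ ε₁ := by
    have h1 := (isLittleO_log_rpow_atTop hε₁).bound (show (0 : ℝ) < η / 8 by positivity)
    filter_upwards [tendsto_natCast_atTop_atTop.eventually h1, eventually_ge_atTop 1] with Y hY hY1
    have hY1r : (1 : ℝ) ≤ Y := by exact_mod_cast hY1
    rw [Real.norm_of_nonneg (Real.log_nonneg hY1r), Real.norm_of_nonneg (by positivity)] at hY
    rw [div_mul_eq_mul_div, div_le_iff₀ hη]
    linarith
  obtain ⟨Y3, hY3⟩ := eventually_atTop.1 (ev0.and ((evp C (s / 4) (by linarith)).and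
    ((evp 8 (ζ / 2) (by linarith)).and ((evp 4 (h - υ - ε) (by linarith)).and
    ((evp ((a.natAbs : ℝ) + 4) ζ hζ).and ((evp (1 + |(a : ℝ)|) (S - 2) (by linarith)).and
    (eventually_ge_atTop 3)))))))
  refine ⟨δ, ε₁, hδ, hε₁, max Y1 (max Y2 Y3), ?_⟩
  intro X hX b q H hq hH hbq Ω hK hb
  have hX1 : Y1 ≤ X := (le_max_left _ _).trans hX
  have hX2 : Y2 ≤ X := ((le_max_left _ _).trans (le_max_right _ _)).trans hX
  obtain ⟨e0, e1, e2, e3, e4, e5, e6⟩ := hY3 X (((le_max_right _ _).trans (le_max_right _ _)).trans hX)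
  have hXr : (3 : ℝ) ≤ X := by exact_mod_cast e6
  have hX0 : (0 : ℝ) < X := by linarith
  have hX1r : (1 : ℝ) ≤ X := by linarith
  have hlX : 0 < Real.log X := Real.log_pos (by linarith)
  have hH0 : (0 : ℝ) < H := lt_of_lt_of_le (by positivity) hH
  have hHn : 0 < H := by exact_mod_cast hH0
  have hqX : q ≤ X := by nlinarith
  obtain ⟨w, hw⟩ : ∃ w : ℝ, w = (X : ℝ) ^ ε₁ := ⟨_, rfl⟩
  have hwX : w ≤ (X : ℝ) + 1 := by
    rw [hw]
    calc (X : ℝ) ^ ε₁ ≤ (X : ℝ) ^ (1 : ℝ) :=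
          Real.rpow_le_rpow_of_exponent_le hX1r (by linarith)
      _ = X := Real.rpow_one _
      _ ≤ _ := by linarith
  have hrK : ∀ p : ℕ, p.Prime → rh a Ω w q p ≤ K + 2 := by
    intro p hp
    unfold rh
    split_ifs
    · omega
    · exact Cl_card_le a Ω w K p hp (hK p hp)
  have hrp : ∀ p : ℕ, p.Prime → rh a Ω w q p ≤ p := by
    intro p hp
    unfold rh
    split_ifs
    · omega
    · exact Cl_le_self a Ω w p
  -- the Mertens condition
  have hmer : Mer (pr X ε₁ υ) (tt X) (fun p => (rh a Ω w q p : ℝ) / p) ε₁ υ η := by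
    intro x y hx hxy hy
    have h1 := HM X hX2 x y hx hxy hy
    set P := (pr X ε₁ υ).filter (fun p => x ≤ tt X p ∧ tt X p < y) with hP
    have h3 : |∑ p ∈ P, (rh a Ω w q p : ℝ) / p - ∑ p ∈ P, (ro (QF a) 0 p : ℝ) / p| ≤ η / 2 := by
      rw [← sum_sub_distrib]
      have h5 : ∀ p ∈ P, |(rh a Ω w q p : ℝ) / p - (ro (QF a) 0 p : ℝ) / p| ≤
          if p ∈ q.primeFactors then 2 / w else 0 := by
        intro p hp
        rw [hP, mem_filter] at hp
        obtain ⟨u1, u2, u3⟩ := pr_mem X p ε₁ υ (by omega) hp.1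
        have hw0 : 0 < w := by rw [hw]; positivity
        have hpw : w ≤ p := by rw [hw]; exact u2
        by_cases hpq : p ∣ q
        · rw [if_pos (Nat.mem_primeFactors.2 ⟨u1, hpq, hq.ne'⟩)]
          unfold rh
          rw [if_pos hpq, Nat.cast_zero, zero_div, zero_sub, abs_neg, abs_of_nonneg (by positivity)]
          have h6 : (ro (QF a) 0 p : ℝ) ≤ 2 := by exact_mod_cast ro_quad_le a p u1
          exact div_le_div₀ (by norm_num) h6 hw0 hpw
        · have h6 : (rh a Ω w q p : ℝ) = ro (QF a) 0 p := by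
            unfold rh
            rw [if_neg hpq, Cl_large a Ω w p (not_lt.2 hpw)]
          rw [h6, sub_self, abs_zero]
          split_ifs
          · positivity
          · exact le_rfl
      calc |∑ p ∈ P, ((rh a Ω w q p : ℝ) / p - (ro (QF a) 0 p : ℝ) / p)| ≤
          ∑ p ∈ P, |(rh a Ω w q p : ℝ) / p - (ro (QF a) 0 p : ℝ) / p| := abs_sum_le_sum_abs _ _
        _ ≤ ∑ p ∈ P, (if p ∈ q.primeFactors then 2 / w else 0) := sum_le_sum h5
        _ = ((P.filter (fun p => p ∈ q.primeFactors)).card : ℝ) * (2 / w) := by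
            rw [← sum_filter, sum_const, nsmul_eq_mul]
        _ ≤ (q.primeFactors.card : ℝ) * (2 / w) := by
            apply mul_le_mul_of_nonneg_right _ (by rw [hw]; positivity)
            have : (P.filter (fun p => p ∈ q.primeFactors)).card ≤ q.primeFactors.card :=
              card_le_card (fun p hp => (mem_filter.1 hp).2)
            exact_mod_cast this
        _ ≤ (2 * Real.log X) * (2 / w) := by
            apply mul_le_mul_of_nonneg_right _ (by rw [hw]; positivity)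
            have h7 := card_pf q hq
            have h8 : (2 : ℝ) ^ q.primeFactors.card ≤ X := h7.trans (by exact_mod_cast hqX)
            have h9 := Real.log_le_log (by positivity) h8
            rw [Real.log_pow] at h9
            have h10 : 0.69 < Real.log 2 := by linarith [Real.log_two_gt_d9]
            have h11 : (q.primeFactors.card : ℝ) * 0.69 ≤ q.primeFactors.card * Real.log 2 :=
              mul_le_mul_of_nonneg_left h10.le (Nat.cast_nonneg _)
            linarith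
        _ ≤ η / 2 := by
            have hw0 : 0 < w := by rw [hw]; positivity
            rw [← hw] at e0
            rw [mul_div_assoc', div_le_iff₀ hw0]
            rw [div_mul_eq_mul_div, div_le_iff₀ hη] at e0
            linarith
    show |∑ p ∈ P, (rh a Ω w q p : ℝ) / p - Real.log (y / x)| ≤ η
    have h6 : |∑ p ∈ P, (ro (QF a) 0 p : ℝ) / p - Real.log (y / x)| ≤ η / 2 := h1
    have h7 := abs_add_le (∑ p ∈ P, (rh a Ω w q p : ℝ) / p - ∑ p ∈ P, (ro (QF a) 0 p : ℝ) / p)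
      (∑ p ∈ P, (ro (QF a) 0 p : ℝ) / p - Real.log (y / x))
    rw [sub_add_sub_cancel] at h7
    linarith
  have hPZ : ∀ w : ℝ, ∀ p ∈ PZ X w, p.Prime := by
    intro w p hp
    unfold PZ at hp
    rw [mem_filter, mem_Icc] at hp
    exact hp.2.1
  have hcard : ((Jp b q H).card : ℝ) = H := by rw [card_Jp b q H hq]
  have key := HG X hX1 (Jp b q H) Ω (rh a Ω w q) hrK hrp hmer (by
    rw [hcard, ← hw]
    calc ∑ T ∈ (PZ X υ).powerset.filter (fun T : Finset ℕ => ((∏ p ∈ T, p : ℕ) : ℝ) ≤ (X : ℝ) ^ (τ + s / 4)),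
          |Err a Ω w (Jp b q H) (rh a Ω w q) T| ≤
        ∑ T ∈ (PZ X υ).powerset.filter (fun T : Finset ℕ => ((∏ p ∈ T, p : ℕ) : ℝ) ≤ (X : ℝ) ^ (τ + s / 4)),
          C * (X : ℝ) ^ (s / 8) := by
          apply sum_le_sum
          intro T hT
          rw [mem_filter, mem_powerset] at hT
          have hTp : ∀ p ∈ T, p.Prime := fun p hp => hPZ υ p (hT.1 hp)
          refine (err_ap a Ω w K b q H hq T hTp hK hb).trans ((hC T hTp).trans ?_)
          apply mul_le_mul_of_nonneg_left _ (by linarith)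
          apply Real.rpow_le_rpow (by positivity) _ (by linarith)
          refine hT.2.trans ?_
          calc (X : ℝ) ^ (τ + s / 4) ≤ (X : ℝ) ^ (1 : ℝ) :=
                Real.rpow_le_rpow_of_exponent_le hX1r (by linarith)
            _ = X := Real.rpow_one _
      _ = (((PZ X υ).powerset.filter
          (fun T : Finset ℕ => ((∏ p ∈ T, p : ℕ) : ℝ) ≤ (X : ℝ) ^ (τ + s / 4))).card : ℝ) *
            (C * (X : ℝ) ^ (s / 8)) := by rw [sum_const, nsmul_eq_mul]
      _ ≤ (X : ℝ) ^ (τ + s / 4) * (C * (X : ℝ) ^ (s / 8)) := by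
          apply mul_le_mul_of_nonneg_right _ (by positivity)
          have h7 := Pool.Agent.TH423.SH.FLIP.card_le (PZ X υ) (hPZ υ) ⌊(X : ℝ) ^ (τ + s / 4)⌋₊
          have h8 : (PZ X υ).powerset.filter
              (fun T : Finset ℕ => ((∏ p ∈ T, p : ℕ) : ℝ) ≤ (X : ℝ) ^ (τ + s / 4)) ⊆
              (PZ X υ).powerset.filter (fun T : Finset ℕ => ∏ p ∈ T, p ≤ ⌊(X : ℝ) ^ (τ + s / 4)⌋₊) := by
            intro T hT
            rw [mem_filter] at hT ⊢
            exact ⟨hT.1, Nat.le_floor hT.2⟩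
          have h9 := (card_le_card h8).trans h7
          calc (((PZ X υ).powerset.filter
              (fun T : Finset ℕ => ((∏ p ∈ T, p : ℕ) : ℝ) ≤ (X : ℝ) ^ (τ + s / 4))).card : ℝ) ≤
              (⌊(X : ℝ) ^ (τ + s / 4)⌋₊ : ℝ) := by exact_mod_cast h9
            _ ≤ _ := Nat.floor_le (by positivity)
      _ ≤ (X : ℝ) ^ (τ + s / 4) * ((X : ℝ) ^ (s / 4) * (X : ℝ) ^ (s / 8)) := by gcongr
      _ = (X : ℝ) ^ (τ + 5 * s / 8) := by
          rw [← Real.rpow_add hX0, ← Real.rpow_add hX0]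
          congr 1
          ring
      _ ≤ (X : ℝ) ^ (h + -ε) := Real.rpow_le_rpow_of_exponent_le hX1r (by linarith)
      _ = (X : ℝ) ^ h * (X : ℝ) ^ (-ε) := Real.rpow_add hX0 _ _
      _ ≤ H * (X : ℝ) ^ (-ε) := mul_le_mul_of_nonneg_right hH (by positivity)) (by
    rw [hcard, card_Jp_filter b q H hq]
    have hprm : ∀ q ∈ pr X ζ υ, q.Prime ∧ (X : ℝ) ^ ζ ≤ q ∧ (q : ℝ) ≤ (X : ℝ) ^ υ := by
      intro q hq
      obtain ⟨u1, u2, u3⟩ := pr_mem X q ζ υ (by omega) hq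
      exact ⟨u1, u2, u3.le⟩
    have hsub : (Icc 1 H).filter (fun j : ℕ => ∃ s ∈ pr X ζ υ, ((s ^ 2 : ℕ) : ℤ) ∣ ((b + q * j : ℕ) : ℤ) ^ 2 + a) ⊆
        (pr X ζ υ).biUnion (fun s => (Icc 1 H).filter
          (fun j : ℕ => ((s ^ 2 : ℕ) : ℤ) ∣ ((b + q * j : ℕ) : ℤ) ^ 2 + a)) := by
      intro j hj
      rw [mem_filter] at hj
      obtain ⟨hj1, s, hs, hsj⟩ := hj
      rw [mem_biUnion]
      exact ⟨s, hs, by rw [mem_filter]; exact ⟨hj1, hsj⟩⟩
    have hcA : ((pr X ζ υ).card : ℝ) ≤ (X : ℝ) ^ υ := by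
      apply card_lt _ _ (by positivity)
      intro s hs
      exact ⟨(hprm s hs).1.one_le, (hprm s hs).2.2⟩
    have htA : ∑ s ∈ pr X ζ υ, 1 / (s : ℝ) ^ 2 ≤ 2 / (X : ℝ) ^ ζ := by
      apply tail_sq _ _ (by
        have : (4 : ℝ) ≤ (a.natAbs : ℝ) + 4 := by
          have := (Nat.cast_nonneg a.natAbs : (0 : ℝ) ≤ _)
          linarith
        linarith)
      intro s hs
      exact (hprm s hs).2.1
    calc (((Icc 1 H).filter (fun j : ℕ => ∃ s ∈ pr X ζ υ,
          ((s ^ 2 : ℕ) : ℤ) ∣ ((b + q * j : ℕ) : ℤ) ^ 2 + a)).card : ℝ) ≤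
          ((∑ s ∈ pr X ζ υ, ((Icc 1 H).filter
            (fun j : ℕ => ((s ^ 2 : ℕ) : ℤ) ∣ ((b + q * j : ℕ) : ℤ) ^ 2 + a)).card : ℕ) : ℝ) := by
            exact_mod_cast (card_le_card hsub).trans card_biUnion_le
      _ ≤ ∑ s ∈ pr X ζ υ, (2 : ℝ) * (H * (1 / (s : ℝ) ^ 2) + 1) := by
          rw [Nat.cast_sum]
          apply sum_le_sum
          intro s hs
          have u := hprm s hs
          have u1 : (a.natAbs : ℝ) + 4 ≤ s := e4.trans u.2.1
          have u2 : a.natAbs + 4 ≤ s := by exact_mod_cast u1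
          exact sq_ap a ha0 s u.1 (by omega) (by omega) b q H (fun hd => (hb s u.1 hd).1)
      _ = 2 * (H * (∑ s ∈ pr X ζ υ, 1 / (s : ℝ) ^ 2) + (pr X ζ υ).card) := by
          rw [← mul_sum, sum_add_distrib, ← mul_sum, sum_const, nsmul_eq_mul, mul_one]
      _ ≤ 2 * (H * (2 / (X : ℝ) ^ ζ) + (X : ℝ) ^ υ) := by gcongr
      _ ≤ H * (X : ℝ) ^ (-ε) := by
          have v1 : 4 * (1 / (X : ℝ) ^ ζ) ≤ (X : ℝ) ^ (-ε) / 2 := by
            rw [mul_one_div, div_le_iff₀ (by positivity)]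
            have w1 : (X : ℝ) ^ (-ε) / 2 * (X : ℝ) ^ ζ = (X : ℝ) ^ (ζ - ε) / 2 := by
              rw [div_mul_eq_mul_div, ← Real.rpow_add hX0]
              congr 2
              ring
            rw [w1]
            have w2 : (X : ℝ) ^ (ζ / 2) ≤ (X : ℝ) ^ (ζ - ε) :=
              Real.rpow_le_rpow_of_exponent_le hX1r (by linarith)
            linarith
          have v2 : 2 * (X : ℝ) ^ υ ≤ H * ((X : ℝ) ^ (-ε) / 2) := by
            have w1 : (X : ℝ) ^ υ * (X : ℝ) ^ (h - υ - ε) = (X : ℝ) ^ h * (X : ℝ) ^ (-ε) := by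
              rw [← Real.rpow_add hX0, ← Real.rpow_add hX0]
              congr 1
              ring
            have w2 : (X : ℝ) ^ υ * 4 ≤ (X : ℝ) ^ υ * (X : ℝ) ^ (h - υ - ε) :=
              mul_le_mul_of_nonneg_left e3 (by positivity)
            have w3 : (X : ℝ) ^ h * (X : ℝ) ^ (-ε) ≤ H * (X : ℝ) ^ (-ε) :=
              mul_le_mul_of_nonneg_right hH (by positivity)
            linarith
          have v3 : (H : ℝ) * (4 * (1 / (X : ℝ) ^ ζ)) ≤ H * ((X : ℝ) ^ (-ε) / 2) :=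
            mul_le_mul_of_nonneg_left v1 hH0.le
          have v4 : 2 * (H * (2 / (X : ℝ) ^ ζ) + (X : ℝ) ^ υ) =
              (H : ℝ) * (4 * (1 / (X : ℝ) ^ ζ)) + 2 * (X : ℝ) ^ υ := by ring
          rw [v4]
          linarith) (by
    intro n hn
    unfold Jp at hn
    rw [mem_image] at hn
    obtain ⟨j, hj, rfl⟩ := hn
    have hj' := (mem_Icc.1 hj).2
    have hnX : b + q * j ≤ X := (Nat.add_le_add_left (Nat.mul_le_mul_left q hj') b).trans hbq
    have u1 : ((((b + q * j : ℕ) : ℤ) ^ 2 + a).natAbs : ℝ) = |(((b + q * j : ℕ) : ℝ)) ^ 2 + a| := by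
      rw [Nat.cast_natAbs]
      push_cast
      rfl
    rw [u1]
    have u2 : (((b + q * j : ℕ) : ℝ)) ≤ X := by exact_mod_cast hnX
    have u3 : (((b + q * j : ℕ) : ℝ)) ^ 2 ≤ (X : ℝ) ^ 2 := pow_le_pow_left₀ (Nat.cast_nonneg _) u2 2
    have u4 : (1 : ℝ) ≤ (X : ℝ) ^ 2 := by nlinarith
    have u5 := abs_nonneg (a : ℝ)
    calc |(((b + q * j : ℕ) : ℝ)) ^ 2 + a| ≤ |(((b + q * j : ℕ) : ℝ)) ^ 2| + |(a : ℝ)| := abs_add_le _ _
      _ = (((b + q * j : ℕ) : ℝ)) ^ 2 + |(a : ℝ)| := by rw [abs_of_nonneg (by positivity)]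
      _ ≤ (1 + |(a : ℝ)|) * (X : ℝ) ^ 2 := by nlinarith
      _ ≤ (X : ℝ) ^ (S - 2) * (X : ℝ) ^ 2 := mul_le_mul_of_nonneg_right e5 (by positivity)
      _ = (X : ℝ) ^ S := by
          rw [← Real.rpow_natCast (X : ℝ) 2, ← Real.rpow_add hX0]
          congr 1
          push_cast
          ring)
  rw [hcard] at key
  refine le_trans ?_ key
  apply mul_le_mul_of_nonneg_left _ hδ.le
  apply mul_le_mul_of_nonneg_left _ hH0.le
  -- comparison of the products
  have hnn : ∀ p : ℕ, p.Prime → ∀ w' : ℝ, 0 ≤ 1 - ((Cl a Ω w' p).card : ℝ) / p := by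
    intro p hp w'
    have hp0 : (0 : ℝ) < p := by exact_mod_cast hp.pos
    rw [sub_nonneg, div_le_one hp0]
    exact_mod_cast Cl_le_self a Ω w' p
  have h9 : ∏ p ∈ (Icc 1 X).filter Nat.Prime, (1 - (rh a Ω w q p : ℝ) / p) =
      ∏ p ∈ (Icc 1 X).filter (fun p : ℕ => p.Prime ∧ ¬ p ∣ q), (1 - ((Cl a Ω w p).card : ℝ) / p) := by
    rw [← filter_filter, prod_filter (fun p : ℕ => ¬ p ∣ q)]
    apply prod_congr rfl
    intro p _
    unfold rh
    by_cases hpq : p ∣ q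
    · rw [if_pos hpq, if_neg (not_not.2 hpq), Nat.cast_zero, zero_div, sub_zero]
    · rw [if_neg hpq, if_pos hpq]
  rw [h9]
  apply Finset.prod_le_prod
  · intro p hp
    exact hnn p (mem_filter.1 hp).2.1 _
  · intro p hp
    have hp0 : (0 : ℝ) < p := by exact_mod_cast (mem_filter.1 hp).2.1.pos
    have h10 : ((Cl a Ω w p).card : ℝ) ≤ ((Cl a Ω ((X : ℝ) + 1) p).card : ℝ) := by
      exact_mod_cast card_le_card (Cl_mono a Ω w _ hwX p)
    have h11 := div_le_div_of_nonneg_right h10 hp0.le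
    linarith

end Pool.Agent.X69.NSQ
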