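import Pool.Agent.X69.NSQ.Gen
import Pool.Agent.Cov.Res
import Pool.Agent.TH423.SH.FLIP

/-!
The weighted sieve for `n ^ 2 + a` in arithmetic progressions and short intervals, with further residue
classes removed at the small primes.
-/

set_option autoImplicit false

namespace Pool.Agent.X69.NSQ

open Finset Filter
open Pool.Agent.W23.DC
open Pool.Agent.Y882 (PZ exJ tt_lt)
open Pool.Agent.Y882.PX
open Pool.Agent.Y882.KW
open Pool.Agent.Y882.SI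
open Pool.Agent.Y882.MG

open Classical in
/-- the classes removed at `p` -/
noncomputable def Cl (a : ℤ) (Ω : ℕ → Finset ℕ) (w : ℝ) (p : ℕ) : Finset ℕ :=
  (range p).filter (fun u : ℕ => Bad a Ω w p u)

lemma bad_mod (a : ℤ) (Ω : ℕ → Finset ℕ) (w : ℝ) (p n : ℕ) :
    Bad a Ω w p n ↔ Bad a Ω w p (n % p) := by
  unfold Bad
  rw [Nat.mod_mod]
  have h1 : (p : ℤ) ∣ ((n : ℤ) ^ 2 + a) - (((n % p : ℕ) : ℤ) ^ 2 + a) := by
    have h2 : (p : ℤ) ∣ (n : ℤ) - ((n % p : ℕ) : ℤ) := by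
      rw [Int.natCast_mod]
      exact Int.dvd_self_sub_emod
    have h3 : ((n : ℤ) ^ 2 + a) - (((n % p : ℕ) : ℤ) ^ 2 + a) =
        ((n : ℤ) - ((n % p : ℕ) : ℤ)) * ((n : ℤ) + ((n % p : ℕ) : ℤ)) := by ring
    rw [h3]
    exact h2.mul_right _
  rw [dvd_iff_dvd_of_dvd_sub h1]

lemma mem_Cl (a : ℤ) (Ω : ℕ → Finset ℕ) (w : ℝ) (p u : ℕ) :
    u ∈ Cl a Ω w p ↔ u < p ∧ Bad a Ω w p u := by
  unfold Cl
  simp only [mem_filter, mem_range]

lemma bad_iff (a : ℤ) (Ω : ℕ → Finset ℕ) (w : ℝ) (p n : ℕ) (hp : 0 < p) :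
    Bad a Ω w p n ↔ n % p ∈ Cl a Ω w p := by
  rw [mem_Cl, ← bad_mod]
  exact ⟨fun h => ⟨Nat.mod_lt _ hp, h⟩, fun h => h.2⟩

lemma Cl_sub (a : ℤ) (Ω : ℕ → Finset ℕ) (w : ℝ) (p : ℕ) : Cl a Ω w p ⊆ range p := by
  intro u hu
  rw [mem_Cl] at hu
  exact mem_range.2 hu.1

lemma Cl_le_self (a : ℤ) (Ω : ℕ → Finset ℕ) (w : ℝ) (p : ℕ) : (Cl a Ω w p).card ≤ p := by
  have := card_le_card (Cl_sub a Ω w p)
  rwa [card_range] at this

lemma Cl_card_le (a : ℤ) (Ω : ℕ → Finset ℕ) (w : ℝ) (K p : ℕ) (hp : p.Prime) (hK : (Ω p).card ≤ K) :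
    (Cl a Ω w p).card ≤ K + 2 := by
  classical
  have h1 : Cl a Ω w p ⊆ Ω p ∪ (range p).filter (fun n : ℕ => (p : ℤ) ∣ (QF a).eval (n : ℤ) + 0) := by
    intro u hu
    rw [mem_Cl] at hu
    rw [mem_union, mem_filter, QF_eval, add_zero]
    rcases hu.2 with h | h
    · exact Or.inr ⟨mem_range.2 hu.1, h⟩
    · left
      rw [Nat.mod_eq_of_lt hu.1] at h
      exact h.2
  have h2 := ro_quad_le a p hp
  rw [ro_eq] at h2
  have h3 := (card_le_card h1).trans (card_union_le _ _)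
  omega

/-- for the large primes -/
lemma Cl_large (a : ℤ) (Ω : ℕ → Finset ℕ) (w : ℝ) (p : ℕ) (hw : ¬ (p : ℝ) < w) :
    (Cl a Ω w p).card = ro (QF a) 0 p := by
  rw [ro_eq]
  congr 1
  ext u
  rw [mem_Cl, mem_filter, QF_eval, add_zero, mem_range]
  apply and_congr_right
  intro _
  constructor
  · rintro (h | h)
    · exact h
    · exact absurd h.1 hw
  · exact Or.inl

lemma Cl_mono (a : ℤ) (Ω : ℕ → Finset ℕ) (w w' : ℝ) (h : w ≤ w') (p : ℕ) :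
    Cl a Ω w p ⊆ Cl a Ω w' p := by
  intro u hu
  rw [mem_Cl] at hu ⊢
  refine ⟨hu.1, ?_⟩
  rcases hu.2 with h1 | h1
  · exact Or.inl h1
  · exact Or.inr ⟨h1.1.trans_le h, h1.2⟩

/-- the elements of a set with differences divisible by `m` -/
lemma diff_count (m : ℕ) (hm : 0 < m) (M : ℕ) (A : Finset ℕ) (hA : A ⊆ Icc 1 M)
    (h : ∀ x ∈ A, ∀ y ∈ A, (m : ℤ) ∣ (x : ℤ) - y) : (A.card : ℝ) ≤ M * (1 / (m : ℝ)) + 1 := by
  classical
  rcases A.eq_empty_or_nonempty with h0 | ⟨b, hb⟩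
  · rw [h0]
    simp only [card_empty, Nat.cast_zero]
    positivity
  have h1 := class_count m hm M (b : ℤ)
  have h2 : A ⊆ (Icc 1 M).filter (fun n : ℕ => (m : ℤ) ∣ (n : ℤ) - (b : ℤ)) := by
    intro x hx
    rw [mem_filter]
    exact ⟨hA hx, h x hx b hb⟩
  have h3 : (A.card : ℝ) ≤
      ((((Icc 1 M).filter (fun n : ℕ => (m : ℤ) ∣ (n : ℤ) - (b : ℤ))).card : ℕ) : ℝ) := by
    exact_mod_cast card_le_card h2
  refine h3.trans (h1.trans (le_of_eq ?_))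
  ring

open Classical in
/-- the squares in a progression -/
lemma sq_ap (a : ℤ) (ha : a ≠ 0) (s : ℕ) (hs : s.Prime) (hsa : a.natAbs < s) (h2 : 2 < s) (b q H : ℕ)
    (hb : s ∣ q → ¬ (s : ℤ) ∣ (b : ℤ) ^ 2 + a) :
    ((((Icc 1 H).filter
      (fun j : ℕ => ((s ^ 2 : ℕ) : ℤ) ∣ ((b + q * j : ℕ) : ℤ) ^ 2 + a)).card : ℕ) : ℝ) ≤
      2 * (H * (1 / (s : ℝ) ^ 2) + 1) := by
  have hsZ : Prime (s : ℤ) := Nat.prime_iff_prime_int.1 hs
  set A := (Icc 1 H).filter (fun j : ℕ => ((s ^ 2 : ℕ) : ℤ) ∣ ((b + q * j : ℕ) : ℤ) ^ 2 + a) with hA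
  rcases A.eq_empty_or_nonempty with h | ⟨j0, hj0⟩
  · rw [h]
    simp only [card_empty, Nat.cast_zero]
    positivity
  have hsd : ∀ j ∈ A, (s : ℤ) ∣ ((b + q * j : ℕ) : ℤ) ^ 2 + a := by
    intro j hj
    rw [hA, mem_filter] at hj
    refine dvd_trans ?_ hj.2
    push_cast
    exact dvd_pow_self _ (by norm_num)
  have hsq : ¬ s ∣ q := by
    intro hd
    apply hb hd
    have h3 := hsd j0 hj0
    obtain ⟨e, rfl⟩ := hd
    have h4 : ((b + s * e * j0 : ℕ) : ℤ) ^ 2 + a = ((b : ℤ) ^ 2 + a) +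
        s * (2 * b * e * j0 + s * (e * j0) ^ 2) := by
      push_cast
      ring
    rw [h4] at h3
    exact (dvd_add_left (Dvd.intro _ rfl)).1 h3
  have hcq : IsCoprime ((s ^ 2 : ℕ) : ℤ) (q : ℤ) := by
    push_cast
    apply IsCoprime.pow_left
    rw [Prime.coprime_iff_not_dvd hsZ]
    intro h
    exact hsq (by exact_mod_cast h)
  -- the values are not divisible by `s`
  have hn : ∀ j ∈ A, ¬ (s : ℤ) ∣ ((b + q * j : ℕ) : ℤ) := by
    intro j hj h8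
    have h10 : (s : ℤ) ∣ a := by
      have h11 : (s : ℤ) ∣ ((b + q * j : ℕ) : ℤ) ^ 2 := dvd_pow h8 (by norm_num)
      have := dvd_sub (hsd j hj) h11
      have e : ((b + q * j : ℕ) : ℤ) ^ 2 + a - ((b + q * j : ℕ) : ℤ) ^ 2 = a := by ring
      rwa [e] at this
    have h12 : s ∣ a.natAbs := Int.natCast_dvd.1 h10
    have := Nat.le_of_dvd (Int.natAbs_pos.2 ha) h12
    omega
  -- the two classes
  have htwo : ∀ j ∈ A, ((s ^ 2 : ℕ) : ℤ) ∣ ((b + q * j : ℕ) : ℤ) - ((b + q * j0 : ℕ) : ℤ) ∨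
      ((s ^ 2 : ℕ) : ℤ) ∣ ((b + q * j : ℕ) : ℤ) + ((b + q * j0 : ℕ) : ℤ) := by
    intro j hj
    obtain ⟨n, hn'⟩ : ∃ n : ℤ, n = ((b + q * j : ℕ) : ℤ) := ⟨_, rfl⟩
    obtain ⟨n0, hn0'⟩ : ∃ n0 : ℤ, n0 = ((b + q * j0 : ℕ) : ℤ) := ⟨_, rfl⟩
    have hj' := (mem_filter.1 hj).2
    have hj0' := (mem_filter.1 hj0).2
    have hnj := hn j hj
    rw [← hn'] at hj' hnj ⊢
    rw [← hn0'] at hj0' ⊢
    have h3 : ((s ^ 2 : ℕ) : ℤ) ∣ (n - n0) * (n + n0) := by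
      have := dvd_sub hj' hj0'
      have e : n ^ 2 + a - (n0 ^ 2 + a) = (n - n0) * (n + n0) := by ring
      rwa [e] at this
    by_cases h4 : (s : ℤ) ∣ n - n0
    · have h5 : ¬ (s : ℤ) ∣ n + n0 := by
        intro h6
        have h7 : (s : ℤ) ∣ 2 * n := by
          have := dvd_add h4 h6
          have e : n - n0 + (n + n0) = 2 * n := by ring
          rwa [e] at this
        rcases hsZ.dvd_or_dvd h7 with h | h
        · have := Int.le_of_dvd (by norm_num) h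
          omega
        · exact hnj h
      left
      have h6 : IsCoprime ((s ^ 2 : ℕ) : ℤ) (n + n0) := by
        push_cast
        apply IsCoprime.pow_left
        exact (Prime.coprime_iff_not_dvd hsZ).2 h5
      exact h6.dvd_of_dvd_mul_right h3
    · right
      have h6 : IsCoprime ((s ^ 2 : ℕ) : ℤ) (n - n0) := by
        push_cast
        apply IsCoprime.pow_left
        exact (Prime.coprime_iff_not_dvd hsZ).2 h4
      exact h6.dvd_of_dvd_mul_left h3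
  set A1 := A.filter (fun j : ℕ => ((s ^ 2 : ℕ) : ℤ) ∣ ((b + q * j : ℕ) : ℤ) - ((b + q * j0 : ℕ) : ℤ)) with hA1
  set A2 := A.filter (fun j : ℕ => ((s ^ 2 : ℕ) : ℤ) ∣ ((b + q * j : ℕ) : ℤ) + ((b + q * j0 : ℕ) : ℤ)) with hA2
  have hAs : A ⊆ A1 ∪ A2 := by
    intro j hj
    rw [mem_union]
    rcases htwo j hj with h | h
    · exact Or.inl (mem_filter.2 ⟨hj, h⟩)
    · exact Or.inr (mem_filter.2 ⟨hj, h⟩)
  have hAI : A ⊆ Icc 1 H := filter_subset _ _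
  have hs2 : 0 < s ^ 2 := pow_pos hs.pos 2
  have hdiff : ∀ x y : ℕ, ((s ^ 2 : ℕ) : ℤ) ∣ ((b + q * x : ℕ) : ℤ) - ((b + q * y : ℕ) : ℤ) →
      ((s ^ 2 : ℕ) : ℤ) ∣ (x : ℤ) - y := by
    intro x y h3
    have h4 : ((b + q * x : ℕ) : ℤ) - ((b + q * y : ℕ) : ℤ) = (q : ℤ) * ((x : ℤ) - y) := by
      push_cast
      ring
    rw [h4] at h3
    exact hcq.dvd_of_dvd_mul_left h3
  have c1 := diff_count (s ^ 2) hs2 H A1 ((filter_subset _ _).trans hAI) (by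
    intro x hx y hy
    apply hdiff
    have h3 := dvd_sub (mem_filter.1 hx).2 (mem_filter.1 hy).2
    have e : ((b + q * x : ℕ) : ℤ) - ((b + q * j0 : ℕ) : ℤ) -
        (((b + q * y : ℕ) : ℤ) - ((b + q * j0 : ℕ) : ℤ)) =
        ((b + q * x : ℕ) : ℤ) - ((b + q * y : ℕ) : ℤ) := by ring
    rwa [e] at h3)
  have c2 := diff_count (s ^ 2) hs2 H A2 ((filter_subset _ _).trans hAI) (by
    intro x hx y hy
    apply hdiff
    have h3 := dvd_sub (mem_filter.1 hx).2 (mem_filter.1 hy).2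
    have e : ((b + q * x : ℕ) : ℤ) + ((b + q * j0 : ℕ) : ℤ) -
        (((b + q * y : ℕ) : ℤ) + ((b + q * j0 : ℕ) : ℤ)) =
        ((b + q * x : ℕ) : ℤ) - ((b + q * y : ℕ) : ℤ) := by ring
    rwa [e] at h3)
  have h3 : (A.card : ℝ) ≤ (A1.card : ℝ) + A2.card := by
    exact_mod_cast (card_le_card hAs).trans (card_union_le _ _)
  refine h3.trans ((add_le_add c1 c2).trans (le_of_eq ?_))
  push_cast
  ring

end Pool.Agent.X69.NSQ
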