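import Pool.Agent.X26.GP.Poly
import Pool.Agent.H474R2.PG.MertensF

/-!
The polynomial `x^2+1`: upper bound for the product `∏ (1 - ρ(q)/q)`.
-/

set_option autoImplicit false

namespace Pool.Agent.X69.NSQ

open Finset Filter Polynomial
open Pool.Agent.X26.GP (PX Zf NF Zf_card_le Zf_lt)

/-- the polynomial `x^2+1` -/
noncomputable def fq : ℤ[X] := X ^ 2 + 1

lemma fq_eval (n : ℤ) : fq.eval n = n ^ 2 + 1 := by simp [fq]

lemma fq_monic : fq.Monic := by
  unfold fq
  monicity!

lemma fq_deg : fq.natDegree = 2 := by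
  unfold fq
  compute_degree!

lemma fq_irr : Irreducible fq := by
  rw [(fq_monic).irreducible_iff_roots_eq_zero_of_degree_le_three (by rw [fq_deg])
    (by rw [fq_deg]; norm_num)]
  rw [Multiset.eq_zero_iff_forall_notMem]
  intro a ha
  have h := (mem_roots'.1 ha).2
  rw [IsRoot, fq_eval] at h
  nlinarith [sq_nonneg a]

lemma fq_NF : NF fq := by
  intro q hq
  refine ⟨0, ?_⟩
  rw [fq_eval]
  intro h
  have h1 : (q : ℤ) ∣ 1 := by simpa using h
  have h2 : q ∣ 1 := by exact_mod_cast h1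
  exact hq.one_lt.ne' (Nat.dvd_one.1 h2)

lemma fq_dvd (q : ℕ) (n : ℤ) : (q : ℤ) ∣ fq.eval n ↔ (q : ℤ) ∣ n ^ 2 + 1 := by rw [fq_eval]

theorem PX_up : ∃ C : ℝ, 0 < C ∧ ∀ Y : ℕ, 3 ≤ Y → PX (fun q => (Zf fq q).card) Y ≤ C / Real.log Y := by
  obtain ⟨C, hC⟩ := Pool.Agent.H474R2.PG.mertens_lower fq fq_irr (by rw [fq_deg]; norm_num)
  refine ⟨Real.exp C, Real.exp_pos _, fun Y hY => ?_⟩
  have hY3 : (3 : ℝ) ≤ Y := by exact_mod_cast hY
  have hlog : 0 < Real.log Y := Real.log_pos (by linarith)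
  have h1 := hC Y hY3
  have h2 : PX (fun q => (Zf fq q).card) Y ≤ Real.exp (-(Pool.Agent.H474R2.PG.Sg (Pool.Agent.H474R2.PG.rho fq) Y)) := by
    unfold PX Pool.Agent.H474R2.PG.Sg Pool.Agent.H474R2.PG.PR
    rw [Nat.floor_natCast, ← Finset.sum_neg_distrib, Real.exp_sum]
    apply Finset.prod_le_prod
    · intro q hq
      have hq' := (mem_filter.1 hq).2
      have hq0 : (0 : ℝ) < q := by exact_mod_cast hq'.pos
      have h3 : (Zf fq q).card ≤ q := by
        have := card_le_card (show Zf fq q ⊆ range q from fun u hu => mem_range.2 (Zf_lt fq q u hu))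
        rwa [card_range] at this
      have h4 : ((Zf fq q).card : ℝ) / q ≤ 1 := by
        rw [div_le_one hq0]
        exact_mod_cast h3
      linarith
    · intro q hq
      have h3 : Pool.Agent.H474R2.PG.rho fq q = (Zf fq q).card := by
        unfold Pool.Agent.H474R2.PG.rho Zf
        rfl
      rw [h3]
      have := Real.add_one_le_exp (-(((Zf fq q).card : ℝ) / q))
      linarith
  refine h2.trans ?_
  have h3 : Real.exp (-(Pool.Agent.H474R2.PG.Sg (Pool.Agent.H474R2.PG.rho fq) Y)) ≤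
      Real.exp (C - Real.log (Real.log Y)) := Real.exp_le_exp.2 (by linarith)
  refine h3.trans (le_of_eq ?_)
  rw [Real.exp_sub, Real.exp_log hlog]

end Pool.Agent.X69.NSQ
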