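import Pool.Agent.Y882.MG.Quad2

/-!
A general form of the weighted sieve for `n ^ 2 + a`: arbitrary finite sets of integers, arbitrary further
residue classes removed at the small primes.
-/

set_option autoImplicit false

namespace Pool.Agent.X69.NSQ

open Finset Filter
open Pool.Agent.W23.DC
open Pool.Agent.Y882 (PZ exJ tt_lt)
open Pool.Agent.Y882.PX
open Pool.Agent.Y882.KW
open Pool.Agent.Y882.SI

/-- the integer `n` is removed at the prime `p` -/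
def Bad (a : ℤ) (Ω : ℕ → Finset ℕ) (w : ℝ) (p n : ℕ) : Prop :=
  (p : ℤ) ∣ (n : ℤ) ^ 2 + a ∨ ((p : ℝ) < w ∧ n % p ∈ Ω p)

open Classical in
/-- the sifted numbers -/
noncomputable def aval (a : ℤ) (Ω : ℕ → Finset ℕ) (w : ℝ) (Y n : ℕ) : ℕ :=
  ((n : ℤ) ^ 2 + a).natAbs *
    ∏ p ∈ (Icc 1 Y).filter (fun p : ℕ => p.Prime ∧ (p : ℝ) < w ∧ n % p ∈ Ω p), p

lemma dvd_aval (a : ℤ) (Ω : ℕ → Finset ℕ) (w : ℝ) (Y n q : ℕ) (hq : q.Prime) (hqY : q ≤ Y) :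
    q ∣ aval a Ω w Y n ↔ Bad a Ω w q n := by
  classical
  unfold aval Bad
  rw [hq.dvd_mul, Int.natCast_dvd]
  apply or_congr_right
  rw [hq.prime.dvd_finset_prod_iff]
  constructor
  · rintro ⟨p, hp, hd⟩
    rw [mem_filter] at hp
    rw [(Nat.prime_dvd_prime_iff_eq hq hp.2.1).1 hd]
    exact ⟨hp.2.2.1, hp.2.2.2⟩
  · rintro ⟨h1, h2⟩
    exact ⟨q, mem_filter.2 ⟨mem_Icc.2 ⟨hq.one_le, hqY⟩, hq, h1, h2⟩, dvd_rfl⟩

lemma prod_dvd_aval (a : ℤ) (Ω : ℕ → Finset ℕ) (w : ℝ) (Y n : ℕ) (T : Finset ℕ)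
    (hT : ∀ p ∈ T, p.Prime ∧ p ≤ Y) :
    (∏ p ∈ T, p) ∣ aval a Ω w Y n ↔ ∀ p ∈ T, Bad a Ω w p n := by
  constructor
  · intro h p hp
    rw [← dvd_aval a Ω w Y n p (hT p hp).1 (hT p hp).2]
    exact (dvd_prod_of_mem _ hp).trans h
  · intro h
    apply prod_primes_dvd
    · intro p hp
      exact (hT p hp).1.prime
    · intro p hp
      rw [dvd_aval a Ω w Y n p (hT p hp).1 (hT p hp).2]
      exact h p hp

theorem V_low' (K : ℕ) (ε δ : ℝ) (hε : 0 < ε) (hδ : 0 < δ) : ∃ Y0 : ℕ, ∀ Y : ℕ, Y0 ≤ Y →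
    ∀ r : ℕ → ℕ, (∀ p : ℕ, p.Prime → r p ≤ K) → (∀ p : ℕ, p.Prime → p ≤ Y → r p < p) →
      (Y : ℝ) ^ (-ε) ≤ δ * ∏ p ∈ (Icc 1 Y).filter Nat.Prime, (1 - (r p : ℝ) / p) := by
  obtain ⟨c0, hc0, HV⟩ := V_low K
  obtain ⟨Y4, HJ⟩ := exJ 2 (by norm_num)
  have ev1 : ∀ᶠ Y : ℕ in atTop, (6 * Real.log Y) ^ (2 * K) ≤ (Y : ℝ) ^ (ε / 2) := by
    have h1 : Tendsto (fun x : ℝ => Real.log x ^ ((2 * K : ℕ) : ℝ) / x ^ (ε / 2)) atTop (nhds 0) := by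
      have := isLittleO_log_rpow_rpow_atTop (((2 * K : ℕ) : ℝ)) (show 0 < ε / 2 by linarith)
      exact this.tendsto_div_nhds_zero
    have h2 := h1.eventually_le_const (show (0 : ℝ) < 1 / (6 ^ (2 * K)) by positivity)
    have h3 := tendsto_natCast_atTop_atTop.eventually (h2.and (eventually_gt_atTop (0 : ℝ)))
    filter_upwards [h3] with X hX
    obtain ⟨h4, h5⟩ := hX
    have h6 : (0 : ℝ) < (X : ℝ) ^ (ε / 2) := by positivity
    rw [div_le_div_iff₀ h6 (by positivity), one_mul, Real.rpow_natCast] at h4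
    rw [mul_pow]
    linarith
  have ev2 : ∀ᶠ Y : ℕ in atTop, 1 / (δ * c0) ≤ (Y : ℝ) ^ (ε / 2) :=
    tendsto_natCast_atTop_atTop.eventually
      ((tendsto_rpow_atTop (by linarith)).eventually_ge_atTop _)
  obtain ⟨Y5, hY5⟩ := eventually_atTop.1 (ev1.and (ev2.and (eventually_ge_atTop 3)))
  refine ⟨max Y4 Y5, fun Y hY r hK hr => ?_⟩
  obtain ⟨e1, e2, e5⟩ := hY5 Y ((le_max_right _ _).trans hY)
  have hYr : (3 : ℝ) ≤ Y := by exact_mod_cast e5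
  have hY0 : (0 : ℝ) < Y := by linarith
  obtain ⟨J0, hJ1, hJ2⟩ := HJ Y ((le_max_left _ _).trans hY)
  have hlY : 0 < Real.log Y := Real.log_pos (by linarith)
  have hJlog : (2 : ℝ) ^ J0 ≤ 6 * Real.log Y := by
    have h6 := Real.log_le_log (by positivity) hJ2
    rw [Real.log_rpow (by linarith), Real.log_pow] at h6
    push_cast at h6
    have h7 : 0.69 < Real.log 2 := by linarith [Real.log_two_gt_d9]
    have h8 : (2 : ℝ) ^ J0 * 0.69 ≤ (2 : ℝ) ^ J0 * Real.log 2 :=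
      mul_le_mul_of_nonneg_left h7.le (by positivity)
    linarith
  have hVl := HV J0 ((Icc 1 Y).filter Nat.Prime) (fun p => (r p : ℝ)) (by
    intro p hp
    rw [mem_filter, mem_Icc] at hp
    refine ⟨hp.2, ?_⟩
    have h1 : (p : ℝ) ≤ Y := by exact_mod_cast hp.1.2
    have h2 : (Y : ℝ) < (Y : ℝ) ^ (2 : ℝ) := by
      rw [Real.rpow_two]
      nlinarith
    have h3 : (p : ℝ) < ((2 ^ 2 ^ J0 : ℕ) : ℝ) := by
      push_cast
      linarith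
    exact_mod_cast h3) (by
    intro p hp
    exact_mod_cast hK p (mem_filter.1 hp).2) (by
    intro p hp
    rw [mem_filter, mem_Icc] at hp
    have h1 := hr p hp.2 hp.1.2
    have h2 : r p + 1 ≤ p := h1
    have h3 : (r p : ℝ) + 1 ≤ p := by exact_mod_cast h2
    linarith)
  have h1 : c0 / (Y : ℝ) ^ (ε / 2) ≤ c0 * (1 / 2 ^ J0) ^ (2 * K) := by
    rw [div_eq_mul_one_div]
    apply mul_le_mul_of_nonneg_left _ hc0.le
    rw [div_pow, one_pow]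
    apply one_div_le_one_div_of_le (by positivity)
    exact (pow_le_pow_left₀ (by positivity) hJlog _).trans e1
  calc (Y : ℝ) ^ (-ε) = 1 / ((Y : ℝ) ^ (ε / 2) * (Y : ℝ) ^ (ε / 2)) := by
        rw [← Real.rpow_add hY0, Real.rpow_neg hY0.le, one_div]
        congr 2
        ring
    _ ≤ δ * (c0 / (Y : ℝ) ^ (ε / 2)) := by
        have h2 : (0 : ℝ) < (Y : ℝ) ^ (ε / 2) := by positivity
        rw [mul_div_assoc', div_le_div_iff₀ (by positivity) h2, one_mul]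
        rw [div_le_iff₀ (by positivity)] at e2
        have h3 : (Y : ℝ) ^ (ε / 2) * 1 ≤ (Y : ℝ) ^ (ε / 2) * ((Y : ℝ) ^ (ε / 2) * (δ * c0)) :=
          mul_le_mul_of_nonneg_left e2 h2.le
        linarith
    _ ≤ _ := mul_le_mul_of_nonneg_left (h1.trans hVl) hδ.le

open Classical in
/-- the good elements of `J` -/
noncomputable def Good (a : ℤ) (r : ℕ) (Ω : ℕ → Finset ℕ) (w z : ℝ) (J : Finset ℕ) : Finset ℕ :=
  J.filter (fun n : ℕ => (((n : ℤ) ^ 2 + a).natAbs.primeFactorsList.length ≤ r ∧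
    ∀ p : ℕ, p.Prime → (p : ℤ) ∣ (n : ℤ) ^ 2 + a → z ≤ p) ∧
    ∀ p : ℕ, p.Prime → (p : ℝ) < w → n % p ∉ Ω p)

open Classical in
/-- the error term -/
noncomputable def Err (a : ℤ) (Ω : ℕ → Finset ℕ) (w : ℝ) (J : Finset ℕ) (ρ : ℕ → ℕ) (T : Finset ℕ) : ℝ :=
  ((J.filter (fun n : ℕ => ∀ p ∈ T, Bad a Ω w p n)).card : ℝ) - J.card * ∏ p ∈ T, ((ρ p : ℝ) / p)

open Classical in
theorem gen (a : ℤ) (ha : ¬ IsSquare (-a)) (K r : ℕ) (τ ζ υ lam S τ' ε : ℝ) (hζ : 0 < ζ)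
    (h2 : 2 * ζ < τ) (h4 : τ ≤ 4 * ζ) (hτ : τ < 1) (hζυ : ζ ≤ υ) (hυτ : υ < τ) (hlam : 0 < lam)
    (hJ0 : ∫ x in ζ..υ, (lam - lam / υ * x) / (τ - x) / x < Real.log (τ / ζ - 1) / τ)
    (hr : 1 / lam + S / υ ≤ r + 1) (hττ' : τ < τ') (hε : 0 < ε) :
    ∃ δ ε₁ η : ℝ, 0 < δ ∧ 0 < ε₁ ∧ ε₁ ≤ ζ ∧ 0 < η ∧ ∃ Y0 : ℕ, ∀ Y : ℕ, Y0 ≤ Y →
      ∀ (J : Finset ℕ) (Ω : ℕ → Finset ℕ) (ρ : ℕ → ℕ), (∀ p : ℕ, p.Prime → ρ p ≤ K) →
        (∀ p : ℕ, p.Prime → ρ p ≤ p) →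
        Mer (pr Y ε₁ υ) (tt Y) (fun p => (ρ p : ℝ) / p) ε₁ υ η →
        ∑ T ∈ (PZ Y υ).powerset.filter (fun T : Finset ℕ => ((∏ p ∈ T, p : ℕ) : ℝ) ≤ (Y : ℝ) ^ τ'),
          |Err a Ω ((Y : ℝ) ^ ε₁) J ρ T| ≤ J.card * (Y : ℝ) ^ (-ε) →
        ((J.filter (fun n : ℕ => ∃ q ∈ pr Y ζ υ, ((q ^ 2 : ℕ) : ℤ) ∣ (n : ℤ) ^ 2 + a)).card : ℝ) ≤
          J.card * (Y : ℝ) ^ (-ε) →
        (∀ n ∈ J, (((n : ℤ) ^ 2 + a).natAbs : ℝ) ≤ (Y : ℝ) ^ S) →
        δ * (J.card * ∏ p ∈ (Icc 1 Y).filter Nat.Prime, (1 - (ρ p : ℝ) / p)) ≤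
          ((Good a r Ω ((Y : ℝ) ^ ε₁) ((Y : ℝ) ^ ζ) J).card : ℝ) := by
  have hυ0 : 0 < υ := by linarith
  have hυ1 : υ ≤ 1 := by linarith
  obtain ⟨δ, ε₁, η, hδ, hε₁, hε₁ζ, -, hη, Y1, HC⟩ :=
    core4 K τ ζ υ lam (lam / υ) τ' 1 (ε / 2) hζ h2 h4 hτ.le hζυ hυτ hlam.le (by positivity)
      (by rw [div_mul_cancel₀ _ hυ0.ne']) hJ0 hττ' one_pos (by linarith)
  obtain ⟨Y2, HV⟩ := V_low' K ε (δ / 2) hε (by linarith)
  have ev1 : ∀ᶠ Y : ℕ in atTop, 5 * Real.log Y ≤ (Y : ℝ) ^ (ε / 2) := by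
    have h1 := (isLittleO_log_rpow_atTop (show 0 < ε / 2 by linarith)).bound
      (show (0 : ℝ) < 1 / 5 by norm_num)
    filter_upwards [tendsto_natCast_atTop_atTop.eventually h1, eventually_ge_atTop 1] with Y hY hY1
    have hY1r : (1 : ℝ) ≤ Y := by exact_mod_cast hY1
    rw [Real.norm_of_nonneg (Real.log_nonneg hY1r), Real.norm_of_nonneg (by positivity)] at hY
    linarith
  obtain ⟨Y3, hY3⟩ := eventually_atTop.1 (ev1.and (eventually_ge_atTop 3))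
  refine ⟨δ / 2, ε₁, η, by linarith, hε₁, hε₁ζ, hη, max Y1 (max Y2 Y3), ?_⟩
  intro Y hY J Ω ρ hK hρ hmer herr hsq hsize
  have hYY1 : Y1 ≤ Y := (le_max_left _ _).trans hY
  have hYY2 : Y2 ≤ Y := ((le_max_left _ _).trans (le_max_right _ _)).trans hY
  obtain ⟨e1, e3⟩ := hY3 Y (((le_max_right _ _).trans (le_max_right _ _)).trans hY)
  have hYr : (3 : ℝ) ≤ Y := by exact_mod_cast e3
  have hY0 : (0 : ℝ) < Y := by linarith
  have hY1r : (1 : ℝ) ≤ Y := by linarith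
  have hlY : 0 < Real.log Y := Real.log_pos (by linarith)
  set V : ℝ := ∏ p ∈ (Icc 1 Y).filter Nat.Prime, (1 - (ρ p : ℝ) / p) with hV
  -- the trivial case
  by_cases hfull : ∃ p : ℕ, p.Prime ∧ p ≤ Y ∧ ¬ ρ p < p
  · obtain ⟨p, hp, hpY, hpr⟩ := hfull
    have h0 : ρ p = p := le_antisymm (hρ p hp) (not_lt.1 hpr)
    have h1 : V = 0 := by
      rw [hV]
      apply prod_eq_zero (mem_filter.2 ⟨mem_Icc.2 ⟨hp.one_le, hpY⟩, hp⟩)
      rw [h0]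
      have : (p : ℝ) ≠ 0 := by exact_mod_cast hp.ne_zero
      rw [div_self this, sub_self]
    rw [h1, mul_zero, mul_zero]
    positivity
  push Not at hfull
  obtain ⟨c, hcL, hcD, hcM⟩ := HC Y hYY1
  have hPZ : ∀ w : ℝ, ∀ p ∈ PZ Y w, p.Prime ∧ p ≤ Y ∧ (p : ℝ) < (Y : ℝ) ^ w := by
    intro w p hp
    unfold PZ at hp
    rw [mem_filter, mem_Icc] at hp
    exact ⟨hp.2.1, hp.1.2, (tt_lt Y p w (by omega) hp.2.1.pos).1 hp.2.2⟩
  have hpw : ∀ w : ℝ, w ≤ 1 → (Y : ℝ) ^ w ≤ Y := by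
    intro w hw
    calc (Y : ℝ) ^ w ≤ (Y : ℝ) ^ (1 : ℝ) :=
          Real.rpow_le_rpow_of_exponent_le (by linarith) hw
      _ = Y := Real.rpow_one _
  obtain ⟨w, hw⟩ : ∃ w : ℝ, w = (Y : ℝ) ^ ε₁ := ⟨_, rfl⟩
  have key := hcM J (aval a Ω w Y) ρ Y (by rw [Real.rpow_one]) hK hρ hmer (by
    have e4 : ∀ T ∈ (PZ Y υ).powerset, c T * (((J.filter (fun j => ∏ p ∈ T, p ∣ aval a Ω w Y j)).card : ℝ) -
          J.card * ∏ p ∈ T, ((ρ p : ℝ) / p)) = c T * Err a Ω w J ρ T := by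
      intro T hT
      rw [mem_powerset] at hT
      unfold Err
      congr 3
      congr 1
      apply filter_congr
      intro n _
      exact prod_dvd_aval a Ω w Y n T (fun p hp => ⟨(hPZ υ p (hT hp)).1, (hPZ υ p (hT hp)).2.1⟩)
    rw [sum_congr rfl e4]
    calc |∑ T ∈ (PZ Y υ).powerset, c T * Err a Ω w J ρ T| ≤
        ∑ T ∈ (PZ Y υ).powerset, |c T * Err a Ω w J ρ T| := abs_sum_le_sum_abs _ _
      _ = ∑ T ∈ (PZ Y υ).powerset.filter (fun T : Finset ℕ => ((∏ p ∈ T, p : ℕ) : ℝ) ≤ (Y : ℝ) ^ τ'),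
          |c T * Err a Ω w J ρ T| := by
          symm
          apply sum_subset (filter_subset _ _)
          intro T hT hT'
          rw [mem_filter, not_and] at hT'
          have h5 : c T = 0 := by
            by_contra h6
            exact hT' hT (hcD T (mem_powerset.1 hT) h6)
          rw [h5, zero_mul, abs_zero]
      _ ≤ ∑ T ∈ (PZ Y υ).powerset.filter (fun T : Finset ℕ => ((∏ p ∈ T, p : ℕ) : ℝ) ≤ (Y : ℝ) ^ τ'),
          (Y : ℝ) ^ (ε / 2) * |Err a Ω w J ρ T| := by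
          apply sum_le_sum
          intro T _
          rw [abs_mul]
          exact mul_le_mul_of_nonneg_right ((hcL T).trans e1) (abs_nonneg _)
      _ = (Y : ℝ) ^ (ε / 2) * ∑ T ∈ (PZ Y υ).powerset.filter
          (fun T : Finset ℕ => ((∏ p ∈ T, p : ℕ) : ℝ) ≤ (Y : ℝ) ^ τ'), |Err a Ω w J ρ T| := by rw [mul_sum]
      _ ≤ (Y : ℝ) ^ (ε / 2) * (J.card * (Y : ℝ) ^ (-ε)) := by
          apply mul_le_mul_of_nonneg_left _ (by positivity)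
          rw [hw]
          exact herr
      _ = J.card * ((Y : ℝ) ^ (ε / 2) * (Y : ℝ) ^ (-ε)) := by ring
      _ = J.card * (Y : ℝ) ^ (-(ε / 2)) := by
          rw [← Real.rpow_add hY0]
          congr 2
          ring)
  rw [← hV] at key
  set G0 := J.filter (fun j => 0 < WW Y ζ υ lam (lam / υ) (aval a Ω w Y j)) with hG0
  set Sq := J.filter (fun n : ℕ => ∃ q ∈ pr Y ζ υ, ((q ^ 2 : ℕ) : ℤ) ∣ (n : ℤ) ^ 2 + a) with hSq
  have hsub : G0 ⊆ Good a r Ω w ((Y : ℝ) ^ ζ) J ∪ Sq := by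
    intro n hn
    rw [hG0, mem_filter] at hn
    obtain ⟨hnJ, hW⟩ := hn
    rw [mem_union]
    by_cases hq : ∃ q ∈ pr Y ζ υ, ((q ^ 2 : ℕ) : ℤ) ∣ (n : ℤ) ^ 2 + a
    · right
      rw [hSq, mem_filter]
      exact ⟨hnJ, hq⟩
    left
    push Not at hq
    -- the value is coprime to the small primes
    have hsm : ∀ p ∈ PZ Y ζ, ¬ p ∣ aval a Ω w Y n := by
      unfold WW at hW
      split_ifs at hW with h
      · exact h
      · simp at hW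
    have hsm' : ∀ p : ℕ, p.Prime → (p : ℝ) < (Y : ℝ) ^ ζ → ¬ Bad a Ω w p n := by
      intro p hp hpz
      have hpY : p ≤ Y := by exact_mod_cast (hpz.le.trans (hpw ζ (hζυ.trans hυ1)))
      rw [← dvd_aval a Ω w Y n p hp hpY]
      apply hsm
      unfold PZ
      rw [mem_filter, mem_Icc]
      exact ⟨⟨hp.one_le, hpY⟩, hp, (tt_lt Y p ζ (by omega) hp.pos).2 hpz⟩
    have hΩ : ∀ p : ℕ, p.Prime → (p : ℝ) < w → n % p ∉ Ω p := by
      intro p hp hpw' hmem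
      refine hsm' p hp ?_ (Or.inr ⟨hpw', hmem⟩)
      refine hpw'.trans_le ?_
      rw [hw]
      exact Real.rpow_le_rpow_of_exponent_le hY1r hε₁ζ
    have hval : aval a Ω w Y n = ((n : ℤ) ^ 2 + a).natAbs := by
      unfold aval
      rw [filter_eq_empty_iff.2, prod_empty, mul_one]
      intro p _ hp
      exact hΩ p hp.1 hp.2.1 hp.2.2
    rw [hval] at hW
    have hne : ((n : ℤ) ^ 2 + a) ≠ 0 := by
      intro h0
      apply ha
      exact ⟨(n : ℤ), by linarith⟩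
    have hres := almost Y (by omega) ζ υ lam S r hζυ hυ0 hυ1 hlam hr
      ((n : ℤ) ^ 2 + a).natAbs (Int.natAbs_ne_zero.2 hne) (hsize n hnJ) hW (by
        intro q hq' hqd
        exact hq q hq' (Int.natCast_dvd.2 hqd))
    unfold Good
    rw [mem_filter]
    exact ⟨hnJ, ⟨hres.1, fun p hp hpd => hres.2 p hp (Int.natCast_dvd.1 hpd)⟩, hΩ⟩
  have hcard : (G0.card : ℝ) ≤ ((Good a r Ω w ((Y : ℝ) ^ ζ) J).card : ℝ) + Sq.card := by
    exact_mod_cast (card_le_card hsub).trans (card_union_le _ _)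
  have hlow := HV Y hYY2 ρ hK (fun p hp hpY => not_le.1 (fun h => by
    have := hfull p hp hpY
    omega))
  have hJc : (0 : ℝ) ≤ J.card := Nat.cast_nonneg _
  have h7 : (J.card : ℝ) * (Y : ℝ) ^ (-ε) ≤ J.card * (δ / 2 * V) := mul_le_mul_of_nonneg_left hlow hJc
  rw [hw] at hcard
  have h8 : δ * J.card * V = δ / 2 * (J.card * V) + J.card * (δ / 2 * V) := by ring
  rw [h8] at key
  linarith

end Pool.Agent.X69.NSQ
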