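import Pool.Agent.X69.NSQ.AP2

/-!
Sums of two integers `x`, `y` with `x ^ 2 + 1` and `y ^ 2 + 1` almost prime.
-/

set_option autoImplicit false

namespace Pool.Agent.X69.NSQ

open Finset Filter
open Pool.Agent.W23.DC
open Pool.Agent.Y882 (PZ exJ tt_lt)
open Pool.Agent.Y882.PX
open Pool.Agent.Y882.KW
open Pool.Agent.Y882.SI
open Pool.Agent.Y882.MG

lemma list_pow_le (z : ℝ) (hz : 0 ≤ z) (l : List ℕ) (h : ∀ p ∈ l, z ≤ p) :
    z ^ l.length ≤ (l.prod : ℝ) := by
  induction l with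
  | nil => simp
  | cons p l ih =>
    rw [List.length_cons, List.prod_cons, pow_succ, Nat.cast_mul]
    have h1 := ih (fun q hq => h q (List.mem_cons_of_mem _ hq))
    have h2 := h p List.mem_cons_self
    have h3 : (0 : ℝ) ≤ z ^ l.length := by positivity
    calc z ^ l.length * z ≤ z ^ l.length * p := mul_le_mul_of_nonneg_left h2 h3
      _ ≤ (l.prod : ℝ) * p := mul_le_mul_of_nonneg_right h1 (Nat.cast_nonneg _)
      _ = _ := mul_comm _ _

lemma len_pow_le (z : ℝ) (hz : 0 ≤ z) (m : ℕ) (hm : m ≠ 0) (h : ∀ p : ℕ, p.Prime → p ∣ m → z ≤ p) :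
    z ^ m.primeFactorsList.length ≤ (m : ℝ) := by
  have h1 := list_pow_le z hz m.primeFactorsList (fun p hp =>
    h p (Nat.prime_of_mem_primeFactorsList hp) (Nat.dvd_of_mem_primeFactorsList hp))
  rwa [Nat.prod_primeFactorsList hm] at h1

/-- the product over all integers -/
lemma tele (M : ℕ) : (1 : ℝ) / 6 ≤ ∏ m ∈ Icc 3 (M + 3), (1 - 4 / (m : ℝ) ^ 2) := by
  have h : ∀ M : ℕ, ∏ m ∈ Icc 3 (M + 3), (1 - 4 / (m : ℝ) ^ 2) =
      ((M : ℝ) + 4) * (M + 5) / (6 * ((M + 3) * (M + 2))) := by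
    intro M
    induction M with
    | zero =>
      simp only [zero_add, Icc_self, prod_singleton]
      norm_num
    | succ M ih =>
      rw [show M + 1 + 3 = M + 3 + 1 by ring, prod_Icc_succ_top (by omega), ih]
      push_cast
      have h1 : (0 : ℝ) < (M : ℝ) + 2 := by positivity
      have h2 : (0 : ℝ) < (M : ℝ) + 3 := by positivity
      have h3 : (0 : ℝ) < (M : ℝ) + 3 + 1 := by positivity
      have h4 : (0 : ℝ) < (M : ℝ) + 4 := by positivity
      field_simp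
      ring
  rw [h, div_le_div_iff₀ (by norm_num) (by positivity)]
  have : (0 : ℝ) ≤ M := Nat.cast_nonneg M
  nlinarith

/-- the correction factor -/
noncomputable def gg (p : ℕ) : ℝ := if 5 ≤ p then 1 - 4 / ((p - 2 : ℕ) : ℝ) ^ 2 else 1

lemma gg_mem (p : ℕ) : 0 ≤ gg p ∧ gg p ≤ 1 := by
  unfold gg
  split_ifs with h
  · have h1 : (3 : ℝ) ≤ ((p - 2 : ℕ) : ℝ) := by exact_mod_cast (by omega : 3 ≤ p - 2)
    constructor
    · rw [sub_nonneg, div_le_one (by positivity)]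
      nlinarith
    · have : 0 ≤ 4 / ((p - 2 : ℕ) : ℝ) ^ 2 := by positivity
      linarith
  · norm_num

lemma gg_prod (P : Finset ℕ) : (1 : ℝ) / 6 ≤ ∏ p ∈ P, gg p := by
  obtain ⟨M, hM⟩ : ∃ M : ℕ, ∀ p ∈ P, p ≤ M := ⟨P.sup id, fun p hp => Finset.le_sup (f := id) hp⟩
  have h1 : ∏ p ∈ Icc 5 (M + 5), gg p ≤ ∏ p ∈ P, gg p := by
    have e1 : ∏ p ∈ P, gg p = ∏ p ∈ P.filter (fun p => 5 ≤ p), gg p := by
      symm
      apply prod_subset (filter_subset _ _)
      intro p hp hp'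
      rw [mem_filter, not_and] at hp'
      unfold gg
      rw [if_neg (hp' hp)]
    rw [e1]
    have hsub : P.filter (fun p => 5 ≤ p) ⊆ Icc 5 (M + 5) := by
      intro p hp
      rw [mem_filter] at hp
      rw [mem_Icc]
      have := hM p hp.1
      omega
    rw [← prod_sdiff hsub]
    calc (∏ p ∈ Icc 5 (M + 5) \ P.filter (fun p => 5 ≤ p), gg p) *
        ∏ p ∈ P.filter (fun p => 5 ≤ p), gg p ≤ 1 * ∏ p ∈ P.filter (fun p => 5 ≤ p), gg p := by
          apply mul_le_mul_of_nonneg_right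
          · exact prod_le_one (fun p _ => (gg_mem p).1) (fun p _ => (gg_mem p).2)
          · exact prod_nonneg fun p _ => (gg_mem p).1
      _ = _ := one_mul _
  have h2 : ∏ p ∈ Icc 5 (M + 5), gg p = ∏ m ∈ Icc 3 (M + 3), (1 - 4 / (m : ℝ) ^ 2) := by
    have e2 : Icc 5 (M + 5) = (Icc 3 (M + 3)).image (fun m => m + 2) := by
      ext x
      simp only [mem_Icc, mem_image]
      constructor
      · intro h
        exact ⟨x - 2, by omega, by omega⟩
      · rintro ⟨m, hm, rfl⟩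
        omega
    rw [e2, prod_image (by intro x _ y _ h; have h' : x + 2 = y + 2 := h; omega)]
    apply prod_congr rfl
    intro m hm
    rw [mem_Icc] at hm
    unfold gg
    rw [if_pos (by omega), Nat.add_sub_cancel]
  exact (tele M).trans (h2.symm.le.trans h1)

open Classical in
/-- the second condition -/
noncomputable def Og (N : ℕ) (p : ℕ) : Finset ℕ :=
  (range p).filter (fun u : ℕ => (p ≠ 2 ∨ Even N) ∧ (p : ℤ) ∣ ((N : ℤ) - u) ^ 2 + 1)

lemma mem_Og (N p u : ℕ) : u ∈ Og N p ↔ u < p ∧ (p ≠ 2 ∨ Even N) ∧ (p : ℤ) ∣ ((N : ℤ) - u) ^ 2 + 1 := by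
  unfold Og
  simp only [mem_filter, mem_range]

lemma ro_one (p : ℕ) : ro (QF 1) 0 p = (Cl 1 (fun _ => ∅) 0 p).card := by
  rw [ro_eq]
  congr 1
  ext u
  rw [mem_Cl, mem_filter, QF_eval, add_zero, mem_range]
  unfold Bad
  simp

open Classical in
lemma Og_card (N p : ℕ) (hp : p.Prime) : (Og N p).card ≤ ro (QF 1) 0 p := by
  rw [ro_one, ← E_card 1 (fun _ => ∅) 0 (N * (p - 1)) 1 p hp (by
    intro h
    exact hp.one_lt.ne' (Nat.dvd_one.1 h))]
  apply card_le_card
  intro u hu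
  rw [mem_Og] at hu
  rw [mem_filter, mem_range]
  refine ⟨hu.1, Or.inl ?_⟩
  have h1 := hu.2.2
  have h2 : ((N * (p - 1) + 1 * u : ℕ) : ℤ) = u - N + p * N := by
    push_cast [Nat.cast_sub hp.one_le]
    ring
  rw [h2]
  have h3 : ((u : ℤ) - N + p * N) ^ 2 + 1 = (((N : ℤ) - u) ^ 2 + 1) +
      p * (2 * (u - N) * N + p * N ^ 2) := by ring
  rw [h3]
  exact dvd_add h1 (Dvd.intro _ rfl)

lemma ro_cases (p : ℕ) (hp : p.Prime) (h2 : p ≠ 2) :
    ro (QF 1) 0 p = 0 ∨ (ro (QF 1) 0 p = 2 ∧ 5 ≤ p) := by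
  have h1 := ro_quad 1 p hp h2
  have hj : jacobiSym (-1) p = 1 ∨ jacobiSym (-1) p = -1 := by
    apply jacobiSym.eq_one_or_neg_one
    rw [Int.gcd_comm]
    simp
  have h5 : p = 3 ∨ 5 ≤ p := by
    have h6 := hp.two_le
    have h7 : p ≠ 4 := by
      rintro rfl
      revert hp
      norm_num
    omega
  rcases h5 with rfl | h5
  · left
    have h8 : jacobiSym (-1) 3 = -1 := by decide +kernel
    rw [h8] at h1
    omega
  · rcases hj with h | h
    · right
      rw [h] at h1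
      exact ⟨by omega, h5⟩
    · left
      rw [h] at h1
      omega

/-- the local factors -/
lemma loc_gold (N : ℕ) (w : ℝ) (p : ℕ) (hp : p.Prime) :
    (1 - (ro (QF 1) 0 p : ℝ) / p) ^ 2 * gg p ≤ 1 - ((Cl 1 (Og N) w p).card : ℝ) / p := by
  by_cases h2 : p = 2
  · subst h2
    have h3 : ro (QF 1) 0 2 = 1 := ro_quad_two 1
    have h4 : (Cl 1 (Og N) w 2).card ≤ 1 := by
      have h5 : Cl 1 (Og N) w 2 ⊆ {1} := by
        intro u hu
        rw [mem_Cl] at hu
        rw [mem_singleton]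
        by_contra hne
        have hu0 : u = 0 := by omega
        subst hu0
        rcases hu.2 with h | h
        · revert h
          norm_num
        · have h6 := h.2
          rw [mem_Og] at h6
          obtain ⟨_, h7, h8⟩ := h6
          have h9 : Even N := by
            rcases h7 with h7 | h7
            · exact absurd rfl h7
            · exact h7
          obtain ⟨k, rfl⟩ := h9
          have h10 : ((2 : ℕ) : ℤ) ∣ 1 := by
            have e : (((k + k : ℕ) : ℤ) - ((0 % 2 : ℕ) : ℤ)) ^ 2 + 1 = 2 * (2 * k ^ 2) + 1 := by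
              push_cast
              ring
            rw [e] at h8
            exact (Int.dvd_add_right (Dvd.intro _ rfl)).1 h8
          revert h10
          norm_num
      simpa using card_le_card h5
    have h5 : ((Cl 1 (Og N) w 2).card : ℝ) ≤ 1 := by exact_mod_cast h4
    have h6 : gg 2 = 1 := by
      unfold gg
      rw [if_neg (by norm_num)]
    rw [h3, h6]
    push_cast
    linarith
  have h3 : (Cl 1 (Og N) w p).card ≤ 2 * ro (QF 1) 0 p := by
    have h4 : Cl 1 (Og N) w p ⊆ Cl 1 (fun _ => ∅) 0 p ∪ Og N p := by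
      intro u hu
      rw [mem_Cl] at hu
      rw [mem_union]
      rcases hu.2 with h | h
      · exact Or.inl ((mem_Cl _ _ _ _ _).2 ⟨hu.1, Or.inl h⟩)
      · right
        rw [Nat.mod_eq_of_lt hu.1] at h
        exact h.2
    have h5 := (card_le_card h4).trans (card_union_le _ _)
    rw [← ro_one] at h5
    have h6 := Og_card N p hp
    omega
  have hp0 : (0 : ℝ) < p := by exact_mod_cast hp.pos
  rcases ro_cases p hp h2 with h | ⟨h, h5⟩
  · have h6 : (Cl 1 (Og N) w p).card = 0 := by omega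
    rw [h, h6]
    simp only [Nat.cast_zero, zero_div, sub_zero, one_pow, one_mul]
    exact (gg_mem p).2
  · have h6 : ((Cl 1 (Og N) w p).card : ℝ) ≤ 4 := by
      have : (Cl 1 (Og N) w p).card ≤ 4 := by omega
      exact_mod_cast this
    rw [h]
    unfold gg
    rw [if_pos h5]
    have h7 : ((p - 2 : ℕ) : ℝ) = p - 2 := by
      push_cast [Nat.cast_sub (by omega : 2 ≤ p)]
      ring
    rw [h7]
    have h8 : (5 : ℝ) ≤ p := by exact_mod_cast h5
    have h9 : (0 : ℝ) < p - 2 := by linarith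
    have h10 : (1 - ((2 : ℕ) : ℝ) / p) ^ 2 * (1 - 4 / ((p : ℝ) - 2) ^ 2) = 1 - 4 / p := by
      push_cast
      field_simp
      ring
    rw [h10]
    have h11 := div_le_div_of_nonneg_right h6 hp0.le
    linarith

open Classical in
/-- **Goldbach's problem** for the integers `x` with `x ^ 2 + 1` almost prime -/
theorem gold (r : ℕ) (τ ζ υ lam S h : ℝ) (hζ : 0 < ζ)
    (h2 : 2 * ζ < τ) (h4 : τ ≤ 4 * ζ) (hτ : τ < h) (hh1 : h ≤ 1) (hζυ : ζ ≤ υ) (hυτ : υ < τ)
    (hlam : 0 < lam)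
    (hJ0 : ∫ x in ζ..υ, (lam - lam / υ * x) / (τ - x) / x < Real.log (τ / ζ - 1) / τ)
    (hr : 1 / lam + S / υ ≤ r + 1) (hS : 2 < S) :
    ∃ (R : ℕ) (c : ℝ), 0 < c ∧ ∃ N0 : ℕ, ∀ N : ℕ, N0 ≤ N → ∀ M H : ℕ, (N : ℝ) ^ h ≤ H → M + H ≤ N →
      c * H / Real.log N ^ 2 ≤ (((Ioc M (M + H)).filter (fun x : ℕ =>
        ((x ^ 2 + 1).primeFactorsList.length ≤ r ∧
          ∀ p : ℕ, p.Prime → p ∣ x ^ 2 + 1 → (N : ℝ) ^ ζ ≤ p) ∧
        ((N - x) ^ 2 + 1).primeFactorsList.length ≤ R)).card : ℝ) := by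
  have hns : ¬ IsSquare (-(1 : ℤ)) := by
    rintro ⟨x, hx⟩
    nlinarith [mul_self_nonneg x]
  obtain ⟨c, δ, hc, hδ, X0, HA⟩ := ap 1 hns 2 r τ ζ υ lam S h hζ h2 h4 hτ hh1 hζυ hυτ hlam hJ0 hr hS
  obtain ⟨c1, hc1, HL⟩ := lo_quad 1 hns
  obtain ⟨R, hR⟩ := exists_nat_ge (3 / δ)
  refine ⟨R + 1, c * (c1 ^ 2 / 6), by positivity, max X0 3, ?_⟩
  intro N hN M H hH hMN
  have hN1 : X0 ≤ N := (le_max_left _ _).trans hN
  have hN3 : 3 ≤ N := (le_max_right _ _).trans hN
  have hNr : (3 : ℝ) ≤ N := by exact_mod_cast hN3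
  have hN0 : (0 : ℝ) < N := by linarith
  have hN1r : (1 : ℝ) ≤ N := by linarith
  have hlN : 0 < Real.log N := Real.log_pos (by linarith)
  have hH0 : (0 : ℝ) < H := lt_of_lt_of_le (by positivity) hH
  have hno : ∀ p : ℕ, p.Prime → ¬ p ∣ 1 := fun p hp h => hp.one_lt.ne' (Nat.dvd_one.1 h)
  have key := HA N hN1 M 1 H one_pos hH (by omega) (Og N)
    (fun p hp => (Og_card N p hp).trans (ro_quad_le 1 p hp))
    (fun p hp hd => absurd hd (hno p hp))
  -- the product
  have hprod : c1 ^ 2 / 6 / Real.log N ^ 2 ≤ ∏ p ∈ (Icc 1 N).filter (fun p : ℕ => p.Prime ∧ ¬ p ∣ 1),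
      (1 - ((Cl 1 (Og N) ((N : ℝ) + 1) p).card : ℝ) / p) := by
    have e1 : (Icc 1 N).filter (fun p : ℕ => p.Prime ∧ ¬ p ∣ 1) = (Icc 1 N).filter Nat.Prime := by
      apply filter_congr
      intro p _
      exact ⟨fun h => h.1, fun h => ⟨h, hno p h⟩⟩
    rw [e1]
    have h5 : ∏ p ∈ (Icc 1 N).filter Nat.Prime, ((1 - (ro (QF 1) 0 p : ℝ) / p) ^ 2 * gg p) ≤
        ∏ p ∈ (Icc 1 N).filter Nat.Prime, (1 - ((Cl 1 (Og N) ((N : ℝ) + 1) p).card : ℝ) / p) := by
      apply Finset.prod_le_prod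
      · intro p _
        exact mul_nonneg (sq_nonneg _) (gg_mem p).1
      · intro p hp
        exact loc_gold N _ p (mem_filter.1 hp).2
    refine le_trans ?_ h5
    rw [prod_mul_distrib, prod_pow]
    have h6 := HL N hN3
    unfold lo at h6
    have h7 : (c1 / Real.log N) ^ 2 ≤ (∏ p ∈ (Icc 1 N).filter Nat.Prime, (1 - (ro (QF 1) 0 p : ℝ) / p)) ^ 2 :=
      pow_le_pow_left₀ (by positivity) h6 2
    calc c1 ^ 2 / 6 / Real.log N ^ 2 = (c1 / Real.log N) ^ 2 * (1 / 6) := by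
          field_simp
      _ ≤ _ := mul_le_mul h7 (gg_prod _) (by norm_num) (sq_nonneg _)
  have hJs : (Good 1 r (Og N) ((N : ℝ) ^ δ) ((N : ℝ) ^ ζ) (Jp M 1 H)) ⊆
      (Ioc M (M + H)).filter (fun x : ℕ =>
        ((x ^ 2 + 1).primeFactorsList.length ≤ r ∧
          ∀ p : ℕ, p.Prime → p ∣ x ^ 2 + 1 → (N : ℝ) ^ ζ ≤ p) ∧
        ((N - x) ^ 2 + 1).primeFactorsList.length ≤ R + 1) := by
    intro x hx
    unfold Good at hx
    rw [mem_filter] at hx
    obtain ⟨hxJ, ⟨hx1, hx2⟩, hx3⟩ := hx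
    unfold Jp at hxJ
    rw [mem_image] at hxJ
    obtain ⟨j, hj, hjx⟩ := hxJ
    rw [mem_Icc] at hj
    have hxM : M < x ∧ x ≤ M + H := by omega
    have hcast : ((x : ℤ) ^ 2 + 1).natAbs = x ^ 2 + 1 := by
      have : (x : ℤ) ^ 2 + 1 = ((x ^ 2 + 1 : ℕ) : ℤ) := by push_cast; ring
      rw [this, Int.natAbs_natCast]
    rw [hcast] at hx1
    rw [mem_filter, mem_Ioc]
    refine ⟨hxM, ⟨hx1, ?_⟩, ?_⟩
    · intro p hp hpd
      apply hx2 p hp
      exact_mod_cast hpd
    -- the second summand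
    obtain ⟨y, hy⟩ : ∃ y : ℕ, y = N - x := ⟨_, rfl⟩
    rw [← hy]
    have hyN : y ≤ N := by omega
    have hxy : (y : ℤ) = N - x := by
      rw [hy]
      push_cast [Nat.cast_sub (by omega : x ≤ N)]
      ring
    have hsmall : ∀ p : ℕ, p.Prime → (p ≠ 2 ∨ Even N) → p ∣ y ^ 2 + 1 → (N : ℝ) ^ δ ≤ p := by
      intro p hp hp2 hpd
      by_contra hlt
      push Not at hlt
      apply hx3 p hp hlt
      rw [mem_Og]
      refine ⟨Nat.mod_lt _ hp.pos, hp2, ?_⟩
      have h5 : (p : ℤ) ∣ (y : ℤ) ^ 2 + 1 := by exact_mod_cast hpd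
      rw [hxy] at h5
      have h6 : (p : ℤ) ∣ (x : ℤ) - ((x % p : ℕ) : ℤ) := by
        rw [Int.natCast_mod]
        exact Int.dvd_self_sub_emod
      have h7 : ((N : ℤ) - ((x % p : ℕ) : ℤ)) ^ 2 + 1 = (((N : ℤ) - x) ^ 2 + 1) +
          ((x : ℤ) - ((x % p : ℕ) : ℤ)) * (2 * N - x - ((x % p : ℕ) : ℤ)) := by ring
      rw [h7]
      exact dvd_add h5 (h6.mul_right _)
    have hz1 : 1 < (N : ℝ) ^ δ := Real.one_lt_rpow (by linarith) hδ
    have hlz : 0 < δ * Real.log N := by positivity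
    have hlen : ∀ m : ℕ, m ≠ 0 → m ≤ N ^ 2 + 1 → (∀ p : ℕ, p.Prime → p ∣ m → (N : ℝ) ^ δ ≤ p) →
        m.primeFactorsList.length ≤ R := by
      intro m hm hmN hmp
      have h5 := len_pow_le ((N : ℝ) ^ δ) (by linarith) m hm hmp
      have h6 : (m : ℝ) ≤ (N : ℝ) ^ 3 := by
        have : (m : ℝ) ≤ (N : ℝ) ^ 2 + 1 := by exact_mod_cast hmN
        nlinarith
      have h7 := Real.log_le_log (by positivity) (h5.trans h6)
      rw [Real.log_pow, Real.log_pow, Real.log_rpow hN0] at h7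
      have h8 : (m.primeFactorsList.length : ℝ) ≤ 3 / δ := by
        rw [le_div_iff₀ hδ]
        have h9 : ((m.primeFactorsList.length : ℝ) * δ) * Real.log N ≤ 3 * Real.log N := by
          push_cast at h7
          linarith
        exact le_of_mul_le_mul_right h9 hlN
      exact_mod_cast h8.trans hR
    have hyN2 : y ^ 2 + 1 ≤ N ^ 2 + 1 := by nlinarith
    by_cases hev : 2 ∣ y ^ 2 + 1
    · obtain ⟨m, hm⟩ := hev
      have hmodd : ¬ 2 ∣ m := by
        rintro ⟨k, rfl⟩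
        have h5 : y % 4 = 0 ∨ y % 4 = 1 ∨ y % 4 = 2 ∨ y % 4 = 3 := by omega
        have h6 : (y ^ 2 + 1) % 4 = 0 := by rw [hm]; omega
        rw [Nat.add_mod, Nat.pow_mod] at h6
        rcases h5 with h5 | h5 | h5 | h5 <;> rw [h5] at h6 <;> norm_num at h6
      have hm0 : m ≠ 0 := by
        rintro rfl
        omega
      have h5 : (y ^ 2 + 1).primeFactorsList.length = m.primeFactorsList.length + 1 := by
        rw [hm]
        have h6 := Nat.perm_primeFactorsList_mul (a := 2) (b := m) (by norm_num) hm0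
        rw [h6.length_eq, List.length_append, Nat.primeFactorsList_prime Nat.prime_two]
        simp [add_comm]
      rw [h5]
      apply Nat.add_le_add_right
      apply hlen m hm0 (by omega)
      intro p hp hpm
      apply hsmall p hp
      · left
        rintro rfl
        exact hmodd hpm
      · rw [hm]
        exact hpm.mul_left 2
    · refine (hlen (y ^ 2 + 1) (by omega) hyN2 ?_).trans (by omega)
      intro p hp hpm
      apply hsmall p hp _ hpm
      left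
      rintro rfl
      exact hev hpm
  calc c * (c1 ^ 2 / 6) * H / Real.log N ^ 2 = c * (H * (c1 ^ 2 / 6 / Real.log N ^ 2)) := by ring
    _ ≤ c * (H * ∏ p ∈ (Icc 1 N).filter (fun p : ℕ => p.Prime ∧ ¬ p ∣ 1),
      (1 - ((Cl 1 (Og N) ((N : ℝ) + 1) p).card : ℝ) / p)) := by
        apply mul_le_mul_of_nonneg_left _ hc.le
        exact mul_le_mul_of_nonneg_left hprod hH0.le
    _ ≤ _ := key
    _ ≤ _ := by exact_mod_cast card_le_card hJs

end Pool.Agent.X69.NSQ
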