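import Pool.Agent.X69.NSQ.Base
import Pool.Agent.Y882.MG.Quad2

/-!
Patterns of integers `n` for which `n^2+1` has at most three (four, five) prime factors.
-/

set_option autoImplicit false

namespace Pool.Agent.X69.NSQ

open Finset Filter
open Pool.Agent.X26.GP (PX Zf NF Zf_card_le Zf_lt pat om)
open Pool.Agent.Y882.SI (gset)

/-- the parameters -/
def Par (r : ℕ) (t z : ℝ) : Prop :=
  (r = 5 ∧ 1 / 2 ≤ t ∧ z = 2 / 5 * t) ∨ (r = 4 ∧ 269 / 500 ≤ t ∧ z = t / 4) ∨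
    (r = 3 ∧ 29 / 40 ≤ t ∧ z = t / 4)

lemma Par.z_pos {r : ℕ} {t z : ℝ} (h : Par r t z) : 0 < z := by
  rcases h with ⟨-, h1, rfl⟩ | ⟨-, h1, rfl⟩ | ⟨-, h1, rfl⟩ <;> linarith

theorem few (r : ℕ) (t z : ℝ) (hpar : Par r t z) (ht : t < 1) (h ε : ℝ) (hh : 0 < h) (h1 : h ≤ 1)
    (hε : 0 < ε) :
    ∃ δ : ℝ, 0 < δ ∧ ∃ X0 : ℕ, ∀ X : ℕ, X0 ≤ X →
      (((Icc 1 X).filter (fun N => ((gset 1 r ((X : ℝ) ^ z) N ⌊(X : ℝ) ^ h⌋₊).card : ℝ) <
        δ * (X : ℝ) ^ h / Real.log X)).card : ℝ) ≤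
      (X : ℝ) ^ (2 * t - h + ε) := by
  have ha : ¬ IsSquare (-(1 : ℤ)) := by
    rintro ⟨s, hs⟩
    nlinarith [mul_self_nonneg s]
  rcases hpar with ⟨rfl, ht0, rfl⟩ | ⟨rfl, ht0, rfl⟩ | ⟨rfl, ht0, rfl⟩
  · have hc := Pool.Agent.Y882.KW.cond_B t (20 / 31) (by linarith) (by norm_num) (by norm_num)
    exact Pool.Agent.Y882.MG.finAll 1 ha 5 t (2 / 5 * t) (9 / 10 * t) (20 / 31)
      (1001 / 500) (by linarith) (by linarith) (by linarith) ht (by linarith) (by linarith)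
      (by linarith) (by norm_num) hc (by norm_num) (by
        have h3 : (1001 / 500 : ℝ) / (9 / 10 * t) ≤ 4449 / 1000 := by
          rw [div_le_iff₀ (by linarith)]
          linarith
        push_cast
        norm_num at h3 ⊢
        linarith) h ε hh h1 hε
  · have hc := Pool.Agent.Y882.KW.cond_A t (8 / 9) (by linarith) (by norm_num) (by norm_num)
    exact Pool.Agent.Y882.MG.finAll 1 ha 4 t (t / 4) (24 / 25 * t) (8 / 9)
      (2001 / 1000) (by linarith) (by linarith) (by linarith) ht (by linarith) (by linarith)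
      (by linarith) (by norm_num) hc (by norm_num) (by
        have h3 : (2001 / 1000 : ℝ) / (24 / 25 * t) ≤ 3875 / 1000 := by
          rw [div_le_iff₀ (by linarith)]
          linarith
        push_cast
        norm_num at h3 ⊢
        linarith) h ε hh h1 hε
  · have hc := Pool.Agent.Y882.KW.cond_A t (8 / 9) (by linarith) (by norm_num) (by norm_num)
    exact Pool.Agent.Y882.MG.finAll 1 ha 3 t (t / 4) (24 / 25 * t) (8 / 9)
      (2001 / 1000) (by linarith) (by linarith) (by linarith) ht (by linarith) (by linarith)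
      (by linarith) (by norm_num) hc (by norm_num) (by
        have h3 : (2001 / 1000 : ℝ) / (24 / 25 * t) ≤ 2875 / 1000 := by
          rw [div_le_iff₀ (by linarith)]
          linarith
        push_cast
        norm_num at h3 ⊢
        linarith) h ε hh h1 hε

/-- the integer `g_1 d_1 + … + g_m d_m` -/
def pt {m : ℕ} (d g : Fin m → ℕ) : ℕ := ∑ i, g i * d i

/-- the number of the residues `u` modulo `q` for which `q` divides some `(u + g·d)^2+1`, `g ∈ F` -/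
def omega {m : ℕ} (d : Fin m → ℕ) (F : Finset (Fin m → ℕ)) (q : ℕ) : ℕ :=
  ((range q).filter (fun u : ℕ => ∃ g ∈ F, q ∣ (u + pt d g) ^ 2 + 1)).card

/-- the product over the primes up to `Y` -/
noncomputable def prd (w : ℕ → ℕ) (Y : ℕ) : ℝ := ∏ q ∈ (Icc 1 Y).filter Nat.Prime, (1 - (w q : ℝ) / q)

lemma om_omega {m : ℕ} (d : Fin m → ℕ) (F : Finset (Fin m → ℕ)) (q : ℕ) : om fq d F q = omega d F q := by
  unfold om omega pt
  congr 1
  apply filter_congr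
  intro u _
  apply exists_congr
  intro g
  apply and_congr_right
  intro _
  rw [fq_dvd]
  have e : ((u : ℤ) + ∑ i, (g i : ℤ) * (d i : ℤ)) ^ 2 + 1 = (((u + ∑ i, g i * d i) ^ 2 + 1 : ℕ) : ℤ) := by
    push_cast; ring
  rw [e]
  exact_mod_cast Iff.rfl

/-- `n^2+1` has at most `r` prime factors, all at least `w` -/
def Few (r : ℕ) (w : ℝ) (n : ℕ) : Prop :=
  (n ^ 2 + 1).primeFactorsList.length ≤ r ∧ ∀ p : ℕ, p.Prime → p ∣ n ^ 2 + 1 → w ≤ p

lemma mem_gset {r : ℕ} {w : ℝ} {N H n : ℕ} : n ∈ gset 1 r w N H ↔ (N < n ∧ n ≤ N + H) ∧ Few r w n := by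
  classical
  unfold gset Few
  rw [mem_filter, mem_Ioc]
  have e : (n : ℤ) ^ 2 + 1 = ((n ^ 2 + 1 : ℕ) : ℤ) := by push_cast; ring
  rw [e, Int.natAbs_natCast]
  have e2 : (∀ p : ℕ, p.Prime → (p : ℤ) ∣ ((n ^ 2 + 1 : ℕ) : ℤ) → w ≤ p) ↔
      ∀ p : ℕ, p.Prime → p ∣ n ^ 2 + 1 → w ≤ p := by
    constructor
    · intro h p hp hd
      exact h p hp (by exact_mod_cast hd)
    · intro h p hp hd
      exact h p hp (by exact_mod_cast hd)
  rw [e2]

open Classical in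
/-- the number of the `n` with `N < n`, `n + g·d ≤ N + Y` for all `g ∈ F`, for which all `(n + g·d)^2+1` have at most
`r` prime factors, all at least `w`, and all `n + g·d` have the colour `i` -/
noncomputable def cnt {l m : ℕ} (r : ℕ) (w : ℝ) (N Y : ℕ) (col : ℕ → Fin (l + 1)) (i : Fin (l + 1))
    (d : Fin m → ℕ) (F : Finset (Fin m → ℕ)) : ℕ :=
  ((Ioc N (N + Y)).filter (fun n : ℕ => ∀ g ∈ F, n + pt d g ≤ N + Y ∧ Few r w (n + pt d g) ∧
    col (n + pt d g) = i)).card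

/-- the exceptional positions -/
noncomputable def Bad (r : ℕ) (z h δ : ℝ) (X : ℕ) : Finset ℕ :=
  (Icc 1 X).filter (fun N => ((gset 1 r ((X : ℝ) ^ z) N ⌊(X : ℝ) ^ h⌋₊).card : ℝ) <
        δ * (X : ℝ) ^ h / Real.log X)

theorem patterns (r : ℕ) (z h δ : ℝ) (hz : 0 < z) (hh : 0 < h) (hh1 : h ≤ 1) (hδ : 0 < δ) (m k l : ℕ) :
    ∃ c : ℝ, 0 < c ∧ ∃ B X₀ : ℕ, ∀ X : ℕ, X₀ ≤ X → ∀ N ∈ Icc 1 X, N ∉ Bad r z h δ X →
    ∀ col : ℕ → Fin (l + 1), ∃ i, ∀ D : ℕ, Real.log X ^ B ≤ D → (D : ℝ) ≤ (X : ℝ) ^ h →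
    ∃ G ⊆ Fintype.piFinset (fun _ : Fin m => Icc 1 D), c * (D : ℝ) ^ m ≤ (G.card : ℝ) ∧ ∀ d ∈ G,
      ∀ F : Finset (Fin m → ℕ), (∀ g ∈ F, ∀ j, g j < k) → (fun _ => 0) ∈ F →
      (Set.InjOn (pt d) F) ∧ (∀ q : ℕ, q.Prime → omega d F q < q) ∧
      c * ((X : ℝ) ^ h * prd (omega d F) ⌊(X : ℝ) ^ h⌋₊) ≤
        (cnt r ((X : ℝ) ^ z) N ⌊(X : ℝ) ^ h⌋₊ col i d F : ℝ) := by
  classical
  obtain ⟨C, hC, hPX⟩ := PX_up
  obtain ⟨κ, hκ⟩ : ∃ κ : ℝ, κ = min (z / 2) 1 := ⟨_, rfl⟩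
  have hκ0 : 0 < κ := by rw [hκ]; exact lt_min (by linarith) one_pos
  have hκ1 : κ ≤ 1 := by rw [hκ]; exact min_le_right _ _
  have hκz : κ < z := by
    have : κ ≤ z / 2 := by rw [hκ]; exact min_le_left _ _
    linarith
  obtain ⟨δ', hδ'⟩ : ∃ δ' : ℝ, δ' = δ * h / (2 * C * (l + 1)) := ⟨_, rfl⟩
  have hl0 : (0 : ℝ) < (l : ℝ) + 1 := by positivity
  have hδ'0 : 0 < δ' := by rw [hδ']; positivity
  obtain ⟨c, hc, B, X₁, hP⟩ := Pool.Agent.X26.GP.poly m k 2 hκ0 hκ1 hδ'0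
  -- largeness
  have t1 : Tendsto (fun X : ℕ => (X : ℝ) ^ h) atTop atTop :=
    (tendsto_rpow_atTop hh).comp tendsto_natCast_atTop_atTop
  have t2 : Tendsto (fun X : ℕ => (X : ℝ) ^ (h / 2)) atTop atTop :=
    (tendsto_rpow_atTop (by linarith)).comp tendsto_natCast_atTop_atTop
  obtain ⟨X₂, hX₂⟩ := eventually_atTop.1 ((t1.eventually_ge_atTop ((X₁ : ℝ) + 4)).and
    ((t2.eventually_ge_atTop 2).and (eventually_ge_atTop 3)))
  refine ⟨c / 2, by positivity, B, X₂, fun X hX N hN hNB col => ?_⟩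
  obtain ⟨e1, e2, e3⟩ := hX₂ X hX
  have hX3 : (3 : ℝ) ≤ X := by exact_mod_cast e3
  have hX0 : (0 : ℝ) < X := by linarith
  have hX1 : (1 : ℝ) < X := by linarith
  have hlogX : 0 < Real.log X := Real.log_pos hX1
  obtain ⟨Y, hY⟩ : ∃ Y : ℕ, Y = ⌊(X : ℝ) ^ h⌋₊ := ⟨_, rfl⟩
  have hXh : 0 < (X : ℝ) ^ h := Real.rpow_pos_of_pos hX0 _
  have hYX : (Y : ℝ) ≤ (X : ℝ) ^ h := by rw [hY]; exact Nat.floor_le hXh.le
  have hYX2 : (X : ℝ) ^ h < Y + 1 := by rw [hY]; exact Nat.lt_floor_add_one _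
  have hYl : (X₁ : ℝ) + 3 ≤ Y := by linarith
  have hYX1 : X₁ ≤ Y := by exact_mod_cast (show (X₁ : ℝ) ≤ Y by linarith)
  have hY3 : 3 ≤ Y := by exact_mod_cast (show (3 : ℝ) ≤ Y by linarith [show (0 : ℝ) ≤ X₁ from Nat.cast_nonneg _])
  have hY3' : (3 : ℝ) ≤ Y := by exact_mod_cast hY3
  have hY0 : (0 : ℝ) < Y := by linarith
  have hlogY0 : 0 < Real.log Y := Real.log_pos (by linarith)
  have hXX : (X : ℝ) ^ h ≤ X := by
    calc (X : ℝ) ^ h ≤ (X : ℝ) ^ (1 : ℝ) := Real.rpow_le_rpow_of_exponent_le hX1.le hh1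
      _ = X := Real.rpow_one _
  have hlogYX : Real.log Y ≤ Real.log X := Real.log_le_log hY0 (hYX.trans hXX)
  have hlogYl : h / 2 * Real.log X ≤ Real.log Y := by
    rw [← Real.log_rpow hX0]
    apply Real.log_le_log (Real.rpow_pos_of_pos hX0 _)
    have h1 : (X : ℝ) ^ h = (X : ℝ) ^ (h / 2) * (X : ℝ) ^ (h / 2) := by
      rw [← Real.rpow_add hX0]; congr 1; ring
    nlinarith
  -- the set
  have hcard : δ * (X : ℝ) ^ h / Real.log X ≤ ((gset 1 r ((X : ℝ) ^ z) N Y).card : ℝ) := by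
    by_contra hcon
    apply hNB
    unfold Bad
    rw [mem_filter, ← hY]
    exact ⟨hN, not_le.1 hcon⟩
  -- the colour
  obtain ⟨i, -, hi⟩ := Finset.exists_le_card_fiber_of_nsmul_le_card_of_maps_to
    (s := gset 1 r ((X : ℝ) ^ z) N Y) (t := (univ : Finset (Fin (l + 1)))) (f := col)
    (b := δ * (X : ℝ) ^ h / Real.log X / (l + 1)) (fun a _ => mem_univ _) ⟨0, mem_univ _⟩ (by
      rw [nsmul_eq_mul, card_univ, Fintype.card_fin]
      push_cast
      rw [mul_div_cancel₀ _ hl0.ne']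
      exact hcard)
  refine ⟨i, fun D hBD hDX => ?_⟩
  obtain ⟨S, hS⟩ : ∃ S, S = (gset 1 r ((X : ℝ) ^ z) N Y).filter (fun n => col n = i) := ⟨_, rfl⟩
  have hSmem : ∀ n, n ∈ S ↔ ((N < n ∧ n ≤ N + Y) ∧ Few r ((X : ℝ) ^ z) n) ∧ col n = i := by
    intro n
    rw [hS, mem_filter, mem_gset]
  have hDY : D ≤ Y := by
    rw [hY]
    exact Nat.le_floor hDX
  have hS1 : S ⊆ Ioc N (N + Y) := by
    intro n hn
    rw [mem_Ioc]
    exact ((hSmem n).1 hn).1.1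
  have hS2 : ∀ n ∈ S, ∀ q : ℕ, q.Prime → (q : ℝ) ≤ (Y : ℝ) ^ κ → ¬ (q : ℤ) ∣ fq.eval (n : ℤ) := by
    intro n hn q hq hqY hd
    rw [fq_dvd] at hd
    have hd' : q ∣ n ^ 2 + 1 := by
      have e : (n : ℤ) ^ 2 + 1 = ((n ^ 2 + 1 : ℕ) : ℤ) := by push_cast; ring
      rw [e] at hd
      exact_mod_cast hd
    have h1 := ((hSmem n).1 hn).1.2.2 q hq hd'
    have h2 : (Y : ℝ) ^ κ ≤ (X : ℝ) ^ κ := Real.rpow_le_rpow hY0.le (hYX.trans hXX) hκ0.le
    have h3 : (X : ℝ) ^ κ < (X : ℝ) ^ z := Real.rpow_lt_rpow_of_exponent_lt hX1 hκz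
    linarith
  have hS3 : δ' * (Y * PX (fun q => (Zf fq q).card) Y) ≤ (S.card : ℝ) := by
    have h1 := hPX Y hY3
    have h2 : C / Real.log Y ≤ 2 * C / (h * Real.log X) := by
      rw [div_le_div_iff₀ hlogY0 (by positivity)]
      nlinarith
    have h3 : δ' * (Y * PX (fun q => (Zf fq q).card) Y) ≤ δ' * ((X : ℝ) ^ h * (2 * C / (h * Real.log X))) := by
      apply mul_le_mul_of_nonneg_left _ hδ'0.le
      have h4 : (Y : ℝ) * PX (fun q => (Zf fq q).card) Y ≤ Y * (2 * C / (h * Real.log X)) :=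
        mul_le_mul_of_nonneg_left (h1.trans h2) hY0.le
      refine h4.trans (mul_le_mul_of_nonneg_right hYX (by positivity))
    refine h3.trans ?_
    rw [hS]
    refine le_trans (le_of_eq ?_) hi
    rw [hδ']
    field_simp
  obtain ⟨G, hG1, hG2, hG3⟩ := hP Y N D hYX1
    ((pow_le_pow_left₀ hlogY0.le hlogYX B).trans hBD) hDY fq (by rw [fq_deg]) fq_NF S hS1 hS2 hS3
  have hDm : 0 ≤ (D : ℝ) ^ m := by positivity
  refine ⟨G, hG1, by nlinarith, fun d hd F hF h0 => ?_⟩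
  obtain ⟨g1, g2, g3⟩ := hG3 d hd F hF h0
  have hprd : PX (om fq d F) Y = prd (omega d F) Y := by
    unfold PX prd
    apply prod_congr rfl
    intro q _
    rw [om_omega]
  refine ⟨?_, fun q hq => ?_, ?_⟩
  · unfold pat at g1
    exact Finset.card_image_iff.1 g1
  · rw [← om_omega]
    exact g2 q hq
  · rw [← hY]
    rw [hprd] at g3
    have hp0 : 0 ≤ prd (omega d F) Y := by
      unfold prd
      apply prod_nonneg
      intro q hq
      have hq' := (mem_filter.1 hq).2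
      have hq0 : (0 : ℝ) < q := by exact_mod_cast hq'.pos
      have h1 := g2 q hq'
      rw [om_omega] at h1
      have h2 : (omega d F q : ℝ) / q ≤ 1 := by
        rw [div_le_one hq0]
        exact_mod_cast h1.le
      linarith
    have h5 : c / 2 * ((X : ℝ) ^ h * prd (omega d F) Y) ≤ c * (Y * prd (omega d F) Y) := by
      have h6 : (X : ℝ) ^ h ≤ 2 * Y := by linarith
      have h7 : (X : ℝ) ^ h * prd (omega d F) Y ≤ 2 * Y * prd (omega d F) Y :=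
        mul_le_mul_of_nonneg_right h6 hp0
      nlinarith
    refine h5.trans (g3.trans ?_)
    rw [Nat.cast_le]
    unfold cnt
    apply card_le_card
    intro n hn
    rw [mem_filter] at hn ⊢
    refine ⟨hS1 hn.1, fun g hg => ?_⟩
    have h8 := (hSmem _).1 (hn.2 g hg)
    exact ⟨h8.1.1.2, h8.1.2, h8.2⟩

end Pool.Agent.X69.NSQ
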